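import Mathlib

set_option autoImplicit false

open Filter Topology Metric Set

namespace Pool.Agent.H792R2.Dyn

/-- The orbit of `c` under `g` escapes to infinity or converges to an attracting periodic cycle
(a sink) of `g`. -/
def Attr (g : ℂ → ℂ) (c : ℂ) : Prop :=
  Tendsto (fun k : ℕ => ‖g^[k] c‖) atTop atTop ∨
    ∃ n : ℕ, 0 < n ∧ ∃ z : ℂ, g^[n] z = z ∧ ‖deriv (g^[n]) z‖ < 1 ∧
      Tendsto (fun k : ℕ => g^[n * k] c) atTop (𝓝 z)

/-- pulling back one step -/
theorem attr_of_step {g : ℂ → ℂ} (hg : Differentiable ℂ g) {c : ℂ} (h : Attr g (g c)) :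
    Attr g c := by
  rcases h with h | ⟨n, hn, z, hz, hd, ht⟩
  · left
    rw [← tendsto_add_atTop_iff_nat 1]
    exact h
  · right
    obtain ⟨m, rfl⟩ : ∃ m, n = m + 1 := ⟨n - 1, by omega⟩
    have hgz : g (g^[m] z) = z := by rw [← Function.iterate_succ_apply' g m z]; exact hz
    have hit : ∀ k, Differentiable ℂ (g^[k]) := fun k => hg.iterate k
    refine ⟨m + 1, hn, g^[m] z, ?_, ?_, ?_⟩
    · rw [← Function.iterate_add_apply, Nat.add_comm, Function.iterate_add_apply, hz]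
    · have h1 : deriv (g^[m + 1]) (g^[m] z) = deriv (g^[m]) z * deriv g (g^[m] z) := by
        rw [Function.iterate_succ, deriv_comp _ ((hit m) _) (hg _), hgz]
      have h2 : deriv (g^[m + 1]) z = deriv g (g^[m] z) * deriv (g^[m]) z := by
        rw [Function.iterate_succ', deriv_comp _ (hg _) ((hit m) _)]
      rw [h1, mul_comm, ← h2]
      exact hd
    · rw [← tendsto_add_atTop_iff_nat 1]
      have h3 : (fun k : ℕ => g^[(m + 1) * (k + 1)] c) =
          fun k : ℕ => g^[m] (g^[(m + 1) * k] (g c)) := by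
        ext k
        rw [← Function.iterate_succ_apply, ← Function.iterate_add_apply]
        have h4 : (m + 1) * (k + 1) = m + ((m + 1) * k).succ := by
          rw [Nat.succ_eq_add_one]; ring
        rw [h4]
      rw [h3]
      exact ((hit m).continuous.tendsto _).comp ht

theorem attr_of_iterate {g : ℂ → ℂ} (hg : Differentiable ℂ g) (m : ℕ) {c : ℂ}
    (h : Attr g (g^[m] c)) : Attr g c := by
  induction m generalizing c with
  | zero => exact h
  | succ m ih =>
    rw [Function.iterate_succ_apply] at h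
    exact attr_of_step hg (ih h)

theorem contDiff_iter {f : ℂ → ℂ → ℂ} (hf : ContDiff ℂ 1 (fun p : ℂ × ℂ => f p.1 p.2)) (n : ℕ) :
    ContDiff ℂ 1 (fun p : ℂ × ℂ => (f p.1)^[n] p.2) := by
  induction n with
  | zero => simpa using contDiff_snd
  | succ n ih =>
    have h : (fun p : ℂ × ℂ => (f p.1)^[n + 1] p.2) = fun p => f p.1 ((f p.1)^[n] p.2) := by
      ext p; rw [Function.iterate_succ_apply']
    rw [h]
    exact hf.comp (contDiff_fst.prodMk ih)

theorem diff_right {f : ℂ → ℂ → ℂ} (hf : ContDiff ℂ 1 (fun p : ℂ × ℂ => f p.1 p.2)) (a : ℂ) :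
    Differentiable ℂ (f a) := by
  have h : ContDiff ℂ 1 (fun z : ℂ => f a z) := hf.comp (contDiff_const.prodMk contDiff_id)
  exact h.differentiable (by norm_num)

/-- once the escape region is reached, the orbit escapes -/
theorem attr_of_large {g : ℂ → ℂ} {R : ℝ} (hR : 0 < R)
    (hesc : ∀ z, R ≤ ‖z‖ → 2 * ‖z‖ ≤ ‖g z‖) {z : ℂ} (hz : R ≤ ‖z‖) :
    Tendsto (fun k : ℕ => ‖g^[k] z‖) atTop atTop := by
  have h1 : ∀ k : ℕ, 2 ^ k * R ≤ ‖g^[k] z‖ := by
    intro k
    induction k with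
    | zero => simpa using hz
    | succ k ih =>
      rw [Function.iterate_succ_apply']
      have h2 : R ≤ ‖g^[k] z‖ := by
        refine le_trans ?_ ih
        have : (1 : ℝ) ≤ 2 ^ k := one_le_pow₀ (by norm_num)
        nlinarith
      have := hesc _ h2
      rw [pow_succ]
      linarith
  refine tendsto_atTop_mono h1 ?_
  exact (tendsto_pow_atTop_atTop_of_one_lt (by norm_num : (1 : ℝ) < 2)).atTop_mul_const hR

theorem attr_large {g : ℂ → ℂ} (hg : Differentiable ℂ g) {R : ℝ} (hR : 0 < R)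
    (hesc : ∀ z, R ≤ ‖z‖ → 2 * ‖z‖ ≤ ‖g z‖) {z : ℂ} (N : ℕ) (hz : R ≤ ‖g^[N] z‖) :
    Attr g z := attr_of_iterate hg N (Or.inl (attr_of_large hR hesc hz))

/-- Being attracted or escaping is stable under perturbation of the map and of the point. -/
theorem attr_stable {f : ℂ → ℂ → ℂ} (hf : ContDiff ℂ 1 (fun p : ℂ × ℂ => f p.1 p.2)) {R ρ : ℝ}
    (hR : 0 < R) (hρ : 0 < ρ)
    (hesc : ∀ a, ‖a‖ < ρ → ∀ z, R ≤ ‖z‖ → 2 * ‖z‖ ≤ ‖f a z‖) {z₀ : ℂ} (h : Attr (f 0) z₀) :
    ∀ᶠ p : ℂ × ℂ in 𝓝 (0, z₀), Attr (f p.1) p.2 := by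
  have hdiff : ∀ a, Differentiable ℂ (f a) := diff_right hf
  have hsmall : ∀ δ : ℝ, 0 < δ → ∀ᶠ p : ℂ × ℂ in 𝓝 ((0 : ℂ), z₀), ‖p.1‖ < δ := by
    intro δ hδ
    have hc : Continuous (fun p : ℂ × ℂ => ‖p.1‖) := by fun_prop
    have h0 : ‖(((0 : ℂ), z₀) : ℂ × ℂ).1‖ < δ := by simpa using hδ
    exact (hc.tendsto ((0 : ℂ), z₀)).eventually (Iio_mem_nhds h0)
  rcases h with h | ⟨n, hn, p₀, hfix, hmult, ht⟩
  · obtain ⟨N, hN⟩ := (h.eventually (eventually_gt_atTop R)).exists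
    have hc : Continuous (fun p : ℂ × ℂ => ‖(f p.1)^[N] p.2‖) := (contDiff_iter hf N).continuous.norm
    have h1 : ∀ᶠ p : ℂ × ℂ in 𝓝 ((0 : ℂ), z₀), R < ‖(f p.1)^[N] p.2‖ :=
      (hc.tendsto ((0 : ℂ), z₀)).eventually (Ioi_mem_nhds hN)
    filter_upwards [h1, hsmall ρ hρ] with p hp1 hp2
    exact attr_large (hdiff _) hR (hesc p.1 hp2) N hp1.le
  · -- the sink case
    set G : ℂ × ℂ → ℂ := fun p => (f p.1)^[n] p.2 with hG
    have hGc : ContDiff ℂ 1 G := contDiff_iter hf n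
    have hGd : ∀ a z, HasDerivAt ((f a)^[n]) (fderiv ℂ G (a, z) (0, 1)) z := by
      intro a z
      have h1 : HasFDerivAt G (fderiv ℂ G (a, z)) (a, z) :=
        (hGc.differentiable (by norm_num) _).hasFDerivAt
      have h2 : HasDerivAt (fun w : ℂ => ((a, w) : ℂ × ℂ)) ((0, 1) : ℂ × ℂ) z :=
        (hasDerivAt_const z a).prodMk (hasDerivAt_id z)
      exact h1.comp_hasDerivAt z h2
    have hDc : Continuous (fun p : ℂ × ℂ => fderiv ℂ G p (0, 1)) :=
      (hGc.continuous_fderiv (by norm_num)).clm_apply continuous_const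
    obtain ⟨lam, hlam1, hlam2⟩ := exists_between hmult
    have hlam0 : 0 ≤ lam := (norm_nonneg _).trans hlam1.le
    have hD0 : ‖fderiv ℂ G ((0 : ℂ), p₀) (0, 1)‖ < lam := by
      rw [← (hGd 0 p₀).deriv]; exact hlam1
    have hev : ∀ᶠ p : ℂ × ℂ in 𝓝 ((0 : ℂ), p₀), ‖fderiv ℂ G p (0, 1)‖ < lam :=
      (hDc.norm.tendsto ((0 : ℂ), p₀)).eventually (Iio_mem_nhds hD0)
    obtain ⟨η₀, hη₀, hball⟩ := Metric.mem_nhds_iff.1 hev
    set η := η₀ / 2 with hη
    have hηpos : 0 < η := by rw [hη]; linarith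
    have hDη : ∀ a z, ‖a‖ < η₀ → z ∈ closedBall p₀ η → ‖deriv ((f a)^[n]) z‖ ≤ lam := by
      intro a z ha hz
      rw [(hGd a z).deriv]
      refine le_of_lt (hball ?_)
      rw [mem_ball, Prod.dist_eq, max_lt_iff]
      refine ⟨by simpa using ha, ?_⟩
      rw [mem_closedBall] at hz
      exact lt_of_le_of_lt hz (by rw [hη]; linarith)
    -- displacement of the centre
    have hdisp : ∀ᶠ a : ℂ in 𝓝 0, ‖(f a)^[n] p₀ - p₀‖ < (1 - lam) * η := by
      have hc : Continuous (fun a : ℂ => ‖(f a)^[n] p₀ - p₀‖) := by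
        have : Continuous (fun a : ℂ => G (a, p₀)) := hGc.continuous.comp (by fun_prop)
        exact (this.sub continuous_const).norm
      have h0 : ‖(f 0)^[n] p₀ - p₀‖ < (1 - lam) * η := by
        rw [hfix, sub_self, norm_zero]
        exact mul_pos (by linarith) hηpos
      exact (hc.tendsto 0).eventually (Iio_mem_nhds h0)
    obtain ⟨δ₁, hδ₁, hδ₁'⟩ := Metric.mem_nhds_iff.1 hdisp
    have hmap : ∀ a, ‖a‖ < min η₀ δ₁ → MapsTo ((f a)^[n]) (closedBall p₀ η) (closedBall p₀ η) ∧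
        LipschitzOnWith ⟨lam, hlam0⟩ ((f a)^[n]) (closedBall p₀ η) := by
      intro a ha
      have ha1 : ‖a‖ < η₀ := lt_of_lt_of_le ha (min_le_left _ _)
      have ha2 : ‖a‖ < δ₁ := lt_of_lt_of_le ha (min_le_right _ _)
      have hL : LipschitzOnWith ⟨lam, hlam0⟩ ((f a)^[n]) (closedBall p₀ η) := by
        apply (convex_closedBall p₀ η).lipschitzOnWith_of_nnnorm_deriv_le
          (fun z _ => ((hdiff a).iterate n) z)
        intro z hz
        have := hDη a z ha1 hz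
        exact_mod_cast this
      refine ⟨?_, hL⟩
      intro z hz
      have h1 := hL.dist_le_mul z hz p₀ (mem_closedBall_self hηpos.le)
      have h2 : dist ((f a)^[n] p₀) p₀ < (1 - lam) * η := by
        rw [dist_eq_norm]
        have : a ∈ ball (0 : ℂ) δ₁ := by simpa using ha2
        exact hδ₁' this
      rw [mem_closedBall] at hz ⊢
      have h3 : dist ((f a)^[n] z) p₀ ≤ dist ((f a)^[n] z) ((f a)^[n] p₀) + dist ((f a)^[n] p₀) p₀ :=
        dist_triangle _ _ _
      have h4 : ((⟨lam, hlam0⟩ : NNReal) : ℝ) * dist z p₀ ≤ lam * η := by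
        change lam * dist z p₀ ≤ lam * η
        exact mul_le_mul_of_nonneg_left hz hlam0
      have h5 : (1 - lam) * η + lam * η = η := by ring
      have h6 : dist ((f a)^[n] z) ((f a)^[n] p₀) ≤ lam * η := h1.trans h4
      linarith
    -- entering time
    obtain ⟨K, hK⟩ := (ht.eventually (Metric.ball_mem_nhds p₀ hηpos)).exists
    have hc : Continuous (fun p : ℂ × ℂ => (f p.1)^[n * K] p.2) := (contDiff_iter hf _).continuous
    have h1 : ∀ᶠ p : ℂ × ℂ in 𝓝 ((0 : ℂ), z₀), (f p.1)^[n * K] p.2 ∈ ball p₀ η :=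
      (hc.tendsto ((0 : ℂ), z₀)).eventually (isOpen_ball.mem_nhds hK)
    filter_upwards [h1, hsmall (min η₀ δ₁) (lt_min hη₀ hδ₁)] with p hp1 hp2
    obtain ⟨hmaps, hL⟩ := hmap p.1 hp2
    have hcontr : ContractingWith ⟨lam, hlam0⟩ (hmaps.restrict ((f p.1)^[n]) _ _) := by
      refine ⟨?_, hL.mapsToRestrict hmaps⟩
      exact_mod_cast hlam2
    obtain ⟨y, hys, hyf, hyt, -⟩ := hcontr.exists_fixedPoint' (isClosed_closedBall.isComplete)
      hmaps (ball_subset_closedBall hp1) (edist_ne_top _ _)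
    right
    refine ⟨n, hn, y, hyf, lt_of_le_of_lt (hDη p.1 y (lt_of_lt_of_le hp2 (min_le_left _ _)) hys)
      hlam2, ?_⟩
    rw [← tendsto_add_atTop_iff_nat K]
    have h3 : (fun k : ℕ => (f p.1)^[n * (k + K)] p.2) =
        fun k : ℕ => ((f p.1)^[n])^[k] ((f p.1)^[n * K] p.2) := by
      ext k
      rw [← Function.iterate_mul, ← Function.iterate_add_apply, Nat.mul_add]
    rw [h3]
    exact hyt

end Pool.Agent.H792R2.Dyn
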