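import Pool.Agent.H792R2.Dyn.Growth

set_option autoImplicit false

open Filter Topology Metric Set Polynomial

namespace Pool.Agent.H792R2.Dyn

/-! ### Polynomial families with differentiable coefficients -/

/-- families of polynomials with `C^1` coefficient functions -/
def PF (p : ℂ → ℂ[X]) : Prop := ∀ n, ContDiff ℂ 1 (fun s => (p s).coeff n)

theorem PF.const (q : ℂ[X]) : PF (fun _ => q) := fun _ => contDiff_const

theorem PF.C : PF (fun s => Polynomial.C s) := by
  intro n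
  by_cases hn : n = 0
  · subst hn
    have h : (fun s : ℂ => (Polynomial.C s).coeff 0) = fun s => s := by ext s; simp
    rw [h]
    exact contDiff_id
  · simpa [Polynomial.coeff_C, hn] using contDiff_const

theorem PF.add {p q : ℂ → ℂ[X]} (hp : PF p) (hq : PF q) : PF (fun s => p s + q s) := by
  intro n
  simpa [Polynomial.coeff_add] using (hp n).add (hq n)

theorem PF.sub {p q : ℂ → ℂ[X]} (hp : PF p) (hq : PF q) : PF (fun s => p s - q s) := by
  intro n
  simpa [Polynomial.coeff_sub] using (hp n).sub (hq n)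

theorem PF.mul {p q : ℂ → ℂ[X]} (hp : PF p) (hq : PF q) : PF (fun s => p s * q s) := by
  intro n
  simp only [Polynomial.coeff_mul]
  exact ContDiff.sum fun i _ => (hp _).mul (hq _)

theorem PF.prod {ι : Type} (t : Finset ι) {p : ι → ℂ → ℂ[X]} (hp : ∀ i, PF (p i)) :
    PF (fun s => ∏ i ∈ t, p i s) := by
  classical
  induction t using Finset.induction_on with
  | empty => simpa using PF.const 1
  | insert i t hi ih =>
    simp only [Finset.prod_insert hi]
    exact (hp i).mul ih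

/-! ### Antiderivatives -/

/-- the antiderivative (without constant term) of a polynomial of degree less than `N` -/
noncomputable def anti (N : ℕ) (p : ℂ[X]) : ℂ[X] :=
  ∑ n ∈ Finset.range N, monomial (n + 1) (p.coeff n / (n + 1))

theorem anti_coeff_zero (N : ℕ) (p : ℂ[X]) : (anti N p).coeff 0 = 0 := by
  simp [anti, Polynomial.coeff_monomial]

theorem anti_coeff_succ (N : ℕ) (p : ℂ[X]) (m : ℕ) :
    (anti N p).coeff (m + 1) = if m < N then p.coeff m / (m + 1) else 0 := by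
  simp only [anti, Polynomial.finsetSum_coeff, Polynomial.coeff_monomial]
  by_cases hm : m < N
  · rw [if_pos hm, Finset.sum_eq_single m]
    · simp
    · intro b _ hb
      rw [if_neg]; omega
    · intro h; exact absurd (Finset.mem_range.2 hm) h
  · rw [if_neg hm]
    apply Finset.sum_eq_zero
    intro b hb
    rw [if_neg]
    have := Finset.mem_range.1 hb
    omega

theorem derivative_anti {N : ℕ} {p : ℂ[X]} (h : p.natDegree < N) :
    derivative (anti N p) = p := by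
  ext m
  rw [Polynomial.coeff_derivative, anti_coeff_succ]
  have hm : (m : ℂ) + 1 ≠ 0 := Nat.cast_add_one_ne_zero m
  by_cases hmN : m < N
  · rw [if_pos hmN]
    field_simp
  · rw [if_neg hmN, zero_mul]
    exact (Polynomial.coeff_eq_zero_of_natDegree_lt (by omega)).symm

theorem PF.anti (N : ℕ) {p : ℂ → ℂ[X]} (hp : PF p) : PF (fun s => anti N (p s)) := by
  intro n
  cases n with
  | zero => simpa [anti_coeff_zero] using contDiff_const
  | succ m =>
    simp only [anti_coeff_succ]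
    by_cases hm : m < N
    · simp only [if_pos hm]
      exact (hp m).div_const _
    · simp only [if_neg hm]
      exact contDiff_const

theorem natDegree_anti_le (N : ℕ) (p : ℂ[X]) : (Dyn.anti N p).natDegree ≤ N := by
  rw [Polynomial.natDegree_le_iff_coeff_eq_zero]
  intro m hm
  cases m with
  | zero => omega
  | succ m => rw [anti_coeff_succ, if_neg (by omega)]

/-- joint regularity of the evaluation of a family -/
theorem PF.contDiff_eval {p : ℂ → ℂ[X]} (hp : PF p) {N : ℕ} (hN : ∀ s, (p s).natDegree < N) :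
    ContDiff ℂ 1 (fun q : ℂ × ℂ => (p q.1).eval q.2) := by
  have h : (fun q : ℂ × ℂ => (p q.1).eval q.2) =
      fun q => ∑ i ∈ Finset.range N, (p q.1).coeff i * q.2 ^ i := by
    ext q
    exact Polynomial.eval_eq_sum_range' (hN q.1) q.2
  rw [h]
  exact ContDiff.sum fun i _ => ((hp i).comp contDiff_fst).mul (contDiff_snd.pow i)

/-- uniform escape radius -/
theorem escape_radius {d : ℕ} (hd : 2 ≤ d) {ℓ A : ℝ} (hℓ : 0 < ℓ) (hA : 0 ≤ A) :
    ∃ R : ℝ, 1 ≤ R ∧ ∀ p : ℂ[X], p.natDegree ≤ d → ℓ ≤ ‖p.coeff d‖ → (∀ i, ‖p.coeff i‖ ≤ A) →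
      ∀ z : ℂ, R ≤ ‖z‖ → 2 * ‖z‖ ≤ ‖p.eval z‖ := by
  refine ⟨max 1 ((d * A + 2) / ℓ), le_max_left _ _, ?_⟩
  intro p hp hlead hcoef z hz
  have hz1 : 1 ≤ ‖z‖ := (le_max_left _ _).trans hz
  have hz2 : d * A + 2 ≤ ℓ * ‖z‖ := by
    have := (le_max_right _ _).trans hz
    rw [div_le_iff₀ hℓ] at this
    linarith
  have heval : p.eval z = ∑ i ∈ Finset.range d, p.coeff i * z ^ i + p.coeff d * z ^ d := by
    rw [Polynomial.eval_eq_sum_range' (Nat.lt_succ_of_le hp), Finset.sum_range_succ]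
  have h1 : ‖∑ i ∈ Finset.range d, p.coeff i * z ^ i‖ ≤ d * A * ‖z‖ ^ (d - 1) := by
    calc ‖∑ i ∈ Finset.range d, p.coeff i * z ^ i‖
        ≤ ∑ i ∈ Finset.range d, ‖p.coeff i * z ^ i‖ := norm_sum_le _ _
      _ ≤ ∑ _i ∈ Finset.range d, A * ‖z‖ ^ (d - 1) := by
          apply Finset.sum_le_sum
          intro i hi
          rw [norm_mul, norm_pow]
          have := Finset.mem_range.1 hi
          exact mul_le_mul (hcoef i) (pow_le_pow_right₀ hz1 (by omega)) (by positivity) hA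
      _ = d * A * ‖z‖ ^ (d - 1) := by
          rw [Finset.sum_const, Finset.card_range, nsmul_eq_mul, mul_assoc]
  have h2 : ℓ * ‖z‖ ^ d ≤ ‖p.coeff d * z ^ d‖ := by
    rw [norm_mul, norm_pow]
    exact mul_le_mul_of_nonneg_right hlead (by positivity)
  have h3 : ‖z‖ ^ d = ‖z‖ ^ (d - 1) * ‖z‖ := by
    rw [← pow_succ]; congr 1; omega
  have h4 : ‖p.coeff d * z ^ d‖ - ‖∑ i ∈ Finset.range d, p.coeff i * z ^ i‖ ≤ ‖p.eval z‖ := by
    rw [heval]
    have := norm_sub_norm_le (p.coeff d * z ^ d) (-∑ i ∈ Finset.range d, p.coeff i * z ^ i)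
    rw [norm_neg, sub_neg_eq_add, add_comm (p.coeff d * z ^ d)] at this
    exact this
  have h5 : ‖z‖ ≤ ‖z‖ ^ (d - 1) := by
    calc ‖z‖ = ‖z‖ ^ 1 := (pow_one _).symm
      _ ≤ ‖z‖ ^ (d - 1) := pow_le_pow_right₀ hz1 (by omega)
  have h6 : 2 * ‖z‖ ≤ ‖z‖ ^ (d - 1) * (ℓ * ‖z‖ - d * A) := by
    have h7 : 2 ≤ ℓ * ‖z‖ - d * A := by linarith
    have h8 : 0 ≤ ‖z‖ ^ (d - 1) := by positivity
    calc 2 * ‖z‖ ≤ 2 * ‖z‖ ^ (d - 1) := by linarith
      _ = ‖z‖ ^ (d - 1) * 2 := by ring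
      _ ≤ _ := mul_le_mul_of_nonneg_left h7 h8
  have h9 : ‖z‖ ^ (d - 1) * (ℓ * ‖z‖ - d * A) = ℓ * (‖z‖ ^ (d - 1) * ‖z‖) -
      d * A * ‖z‖ ^ (d - 1) := by ring
  rw [h3] at h2
  linarith

/-- Uniform escape for a family near the parameter `0`. -/
theorem family_escape {d : ℕ} (hd : 2 ≤ d) {p : ℂ → ℂ[X]} (hp : PF p)
    (hdeg : ∀ s, (p s).natDegree ≤ d) (h0 : (p 0).coeff d ≠ 0) :
    ∃ R ρ : ℝ, 1 ≤ R ∧ 0 < ρ ∧ ∀ s, ‖s‖ < ρ → (p s).coeff d ≠ 0 ∧
      ∀ z, R ≤ ‖z‖ → 2 * ‖z‖ ≤ ‖(p s).eval z‖ := by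
  have hlead : ∀ᶠ s : ℂ in 𝓝 0, ‖(p 0).coeff d‖ / 2 < ‖(p s).coeff d‖ := by
    have hc : Continuous (fun s => ‖(p s).coeff d‖) := (hp d).continuous.norm
    have hpos : 0 < ‖(p 0).coeff d‖ := norm_pos_iff.2 h0
    exact (hc.tendsto 0).eventually (Ioi_mem_nhds (half_lt_self hpos))
  set A : ℝ := ∑ i ∈ Finset.range (d + 1), (‖(p 0).coeff i‖ + 1) with hA
  have hcoef : ∀ᶠ s : ℂ in 𝓝 0, ∀ i ∈ Finset.range (d + 1), ‖(p s).coeff i‖ <
      ‖(p 0).coeff i‖ + 1 := by
    rw [Filter.eventually_all_finset]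
    intro i _
    have hc : Continuous (fun s => ‖(p s).coeff i‖) := (hp i).continuous.norm
    exact (hc.tendsto 0).eventually (Iio_mem_nhds (by linarith))
  have hA0 : 0 ≤ A := Finset.sum_nonneg fun i _ => by positivity
  obtain ⟨R, hR1, hR⟩ := escape_radius hd (half_pos (norm_pos_iff.2 h0)) hA0
  obtain ⟨ρ, hρ, hρs⟩ := Metric.mem_nhds_iff.1 (hlead.and hcoef)
  refine ⟨R, ρ, hR1, hρ, ?_⟩
  intro s hs
  have hsb : s ∈ ball (0 : ℂ) ρ := by simpa using hs
  obtain ⟨h1, h2⟩ := hρs hsb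
  have h1' : ‖(p 0).coeff d‖ / 2 < ‖(p s).coeff d‖ := h1
  refine ⟨?_, ?_⟩
  · intro h
    rw [h, norm_zero] at h1'
    have := norm_nonneg ((p 0).coeff d)
    linarith
  · apply hR (p s) (hdeg s) h1'.le
    intro i
    by_cases hi : i ∈ Finset.range (d + 1)
    · refine (h2 i hi).le.trans ?_
      exact Finset.single_le_sum (f := fun i => ‖(p 0).coeff i‖ + 1)
        (fun _ _ => by positivity) hi
    · rw [Polynomial.coeff_eq_zero_of_natDegree_lt, norm_zero]
      · exact hA0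
      · have := hdeg s
        rw [Finset.mem_range] at hi
        omega

end Pool.Agent.H792R2.Dyn
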