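import Pool.Agent.H792R2.Dyn.Setup

set_option autoImplicit false

open Filter Topology Metric Set Polynomial

namespace Pool.Agent.H792R2.Dyn

theorem contDiff_iter' {E : Type} [NormedAddCommGroup E] [NormedSpace ℂ E] {f : E → ℂ → ℂ}
    (hf : ContDiff ℂ 1 (fun p : E × ℂ => f p.1 p.2)) (n : ℕ) :
    ContDiff ℂ 1 (fun p : E × ℂ => (f p.1)^[n] p.2) := by
  induction n with
  | zero => simpa using contDiff_snd
  | succ n ih =>
    have h : (fun p : E × ℂ => (f p.1)^[n + 1] p.2) = fun p => f p.1 ((f p.1)^[n] p.2) := by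
      ext p; rw [Function.iterate_succ_apply']
    rw [h]
    exact hf.comp (contDiff_fst.prodMk ih)

/-- adding a large constant makes a given orbit injective -/
theorem exists_nonperiodic {T : ℂ[X]} (hd : 2 ≤ T.natDegree) (e : ℂ) :
    ∃ γ : ℂ, Function.Injective (fun m : ℕ => (fun z => T.eval z + γ)^[m] e) := by
  have hlead : 0 < ‖(C (1 / 2 : ℂ) * T).coeff T.natDegree‖ := by
    rw [Polynomial.coeff_C_mul, norm_mul]
    have : T.coeff T.natDegree ≠ 0 := by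
      intro h
      have h2 := Polynomial.leadingCoeff_eq_zero.1 h
      rw [h2] at hd
      simp at hd
    exact mul_pos (by norm_num) (norm_pos_iff.2 this)
  set A : ℝ := ∑ i ∈ Finset.range (T.natDegree + 1), ‖(C (1 / 2 : ℂ) * T).coeff i‖ with hA
  have hA0 : 0 ≤ A := Finset.sum_nonneg fun i _ => norm_nonneg _
  obtain ⟨R, hR1, hR⟩ := escape_radius hd hlead hA0
  have hdeg : (C (1 / 2 : ℂ) * T).natDegree ≤ T.natDegree := Polynomial.natDegree_C_mul_le _ _
  have hR4 : ∀ z : ℂ, R ≤ ‖z‖ → 4 * ‖z‖ ≤ ‖T.eval z‖ := by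
    intro z hz
    have h1 := hR (C (1 / 2 : ℂ) * T) hdeg le_rfl (fun i => by
      by_cases hi : i ∈ Finset.range (T.natDegree + 1)
      · exact Finset.single_le_sum (f := fun i => ‖(C (1 / 2 : ℂ) * T).coeff i‖)
          (fun _ _ => norm_nonneg _) hi
      · rw [Polynomial.coeff_eq_zero_of_natDegree_lt, norm_zero]
        · exact hA0
        · rw [Finset.mem_range] at hi
          omega) z hz
    rw [Polynomial.eval_mul, Polynomial.eval_C, norm_mul] at h1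
    have h2 : ‖(1 / 2 : ℂ)‖ = 1 / 2 := by norm_num
    rw [h2] at h1
    linarith
  set G : ℝ := 2 * (R + ‖T.eval e‖ + ‖e‖ + 1) with hG
  have hGpos : 0 < G := by
    have := norm_nonneg (T.eval e)
    have := norm_nonneg e
    rw [hG]; linarith
  have hγ : ‖(G : ℂ)‖ = G := by
    rw [Complex.norm_real, Real.norm_eq_abs, abs_of_pos hGpos]
  refine ⟨(G : ℂ), ?_⟩
  set x : ℕ → ℂ := fun m => (fun z => T.eval z + (G : ℂ))^[m] e with hx
  have hx1 : G / 2 ≤ ‖x 1‖ := by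
    simp only [hx, Function.iterate_one]
    have h1 := norm_sub_norm_le (G : ℂ) (-T.eval e)
    rw [norm_neg, sub_neg_eq_add, hγ, add_comm (G : ℂ)] at h1
    have h2 : ‖T.eval e‖ ≤ G / 2 := by
      have := norm_nonneg e
      rw [hG]; linarith
    linarith
  have hstep : ∀ z : ℂ, G / 2 ≤ ‖z‖ → 2 * ‖z‖ ≤ ‖T.eval z + (G : ℂ)‖ := by
    intro z hz
    have h0 : R ≤ ‖z‖ := by
      have := norm_nonneg (T.eval e)
      have := norm_nonneg e
      have h3 : G / 2 = R + ‖T.eval e‖ + ‖e‖ + 1 := by rw [hG]; ring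
      linarith
    have h1 := hR4 z h0
    have h2 := norm_sub_norm_le (T.eval z) (-(G : ℂ))
    rw [norm_neg, sub_neg_eq_add, hγ] at h2
    linarith
  have hbig : ∀ m, G / 2 ≤ ‖x (m + 1)‖ := by
    intro m
    induction m with
    | zero => exact hx1
    | succ m ih =>
      have h1 := hstep _ ih
      have h2 : x (m + 1 + 1) = T.eval (x (m + 1)) + (G : ℂ) := by
        simp only [hx]
        rw [Function.iterate_succ_apply']
      rw [h2]
      linarith [norm_nonneg (x (m + 1))]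
  have hmono : StrictMono (fun m => ‖x m‖) := by
    apply strictMono_nat_of_lt_succ
    intro m
    cases m with
    | zero =>
      have h0 : ‖x 0‖ = ‖e‖ := by simp [hx]
      have h3 : G / 2 = R + ‖T.eval e‖ + ‖e‖ + 1 := by rw [hG]; ring
      have := norm_nonneg (T.eval e)
      rw [h0]
      linarith
    | succ m =>
      have h1 := hstep _ (hbig m)
      have h2 : x (m + 1 + 1) = T.eval (x (m + 1)) + (G : ℂ) := by
        simp only [hx]
        rw [Function.iterate_succ_apply']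
      rw [h2]
      have := hbig m
      linarith
  intro m m' h
  exact hmono.injective (congrArg norm h)

/-- the two-parameter family -/
noncomputable def gg (T : ℂ[X]) (Cs : Finset ℂ) (k : ℂ → ℕ) (g : ℂ[X]) (q : ℂ × ℂ) (z : ℂ) : ℂ :=
  (base T Cs k g q.1).eval z + q.2

theorem gg_contDiff (T : ℂ[X]) (Cs : Finset ℂ) (k : ℂ → ℕ) (g : ℂ[X]) :
    ContDiff ℂ 1 (fun p : (ℂ × ℂ) × ℂ => gg T Cs k g p.1 p.2) := by
  unfold gg
  have h1 := (PF_base T Cs k g).contDiff_eval (N := T.natDegree + 1)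
    (fun s => Nat.lt_succ_of_le (base_natDegree T Cs k g s))
  have h2 : ContDiff ℂ 1 (fun p : (ℂ × ℂ) × ℂ => ((p.1.1, p.2) : ℂ × ℂ)) :=
    (contDiff_fst.fst).prodMk contDiff_snd
  exact (h1.comp h2).add contDiff_fst.snd

theorem iter_contDiff_of {E : Type} [NormedAddCommGroup E] [NormedSpace ℂ E] {f : E → ℂ → ℂ}
    (hf : ContDiff ℂ 1 (fun p : E × ℂ => f p.1 p.2)) (e : ℂ) (m : ℕ) :
    ContDiff ℂ 1 (fun q : E => (f q)^[m] e) := by
  have h1 := contDiff_iter' hf m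
  have h2 : ContDiff ℂ 1 (fun q : E => ((q, e) : E × ℂ)) := contDiff_id.prodMk contDiff_const
  exact h1.comp h2

theorem gg_iter_contDiff (T : ℂ[X]) (Cs : Finset ℂ) (k : ℂ → ℕ) (g : ℂ[X]) (e : ℂ) (m : ℕ) :
    ContDiff ℂ 1 (fun q : ℂ × ℂ => (gg T Cs k g q)^[m] e) :=
  iter_contDiff_of (f := gg T Cs k g) (gg_contDiff T Cs k g) e m

/-- A relation is not persistent along the lines `γ = j s` for large integers `j`. -/
theorem nonpersistent {T : ℂ[X]} (hd : 2 ≤ T.natDegree) {Cs : Finset ℂ} {k : ℂ → ℕ} {g : ℂ[X]}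
    (hT : derivative T = (∏ c ∈ Cs, (X - C c) ^ (k c)) * g) {K : ℕ} (hK : 1 ≤ K) (e : ℂ)
    {M p : ℕ} (hp : 0 < p) :
    ∀ᶠ j : ℕ in atTop, ¬ ∀ᶠ a : ℂ in 𝓝 0,
      (gg T Cs k g (a ^ K, (j : ℂ) * a ^ K))^[p + M] e = (gg T Cs k g (a ^ K, (j : ℂ) * a ^ K))^[M] e := by
  by_contra hcon
  rw [Filter.not_eventually] at hcon
  simp only [not_not] at hcon
  have hc : ∀ m, ContDiff ℂ 1 (fun q : ℂ × ℂ => (gg T Cs k g q)^[m] e) :=
    fun m => gg_iter_contDiff T Cs k g e m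
  obtain ⟨γ, hγ⟩ := exists_nonperiodic hd e
  have hne : (gg T Cs k g (0, γ))^[p + M] e ≠ (gg T Cs k g (0, γ))^[M] e := by
    intro h
    have h1 : gg T Cs k g (0, γ) = fun z => T.eval z + γ := by
      ext z
      simp only [gg, base_zero hT]
    rw [h1] at h
    have h2 : p + M = M := hγ h
    omega
  -- for frequently many `j` the relation holds on the whole line
  have hline : ∀ j : ℕ, (∀ᶠ a : ℂ in 𝓝 0,
      (gg T Cs k g (a ^ K, (j : ℂ) * a ^ K))^[p + M] e =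
        (gg T Cs k g (a ^ K, (j : ℂ) * a ^ K))^[M] e) →
      ∀ s : ℂ, (gg T Cs k g (s, (j : ℂ) * s))^[p + M] e = (gg T Cs k g (s, (j : ℂ) * s))^[M] e := by
    intro j hj s
    have hdiff : ∀ m, AnalyticOnNhd ℂ (fun a : ℂ =>
        (gg T Cs k g (a ^ K, (j : ℂ) * a ^ K))^[m] e) univ := by
      intro m
      have h1 : Differentiable ℂ (fun q : ℂ × ℂ => (gg T Cs k g q)^[m] e) :=
        (hc m).differentiable (by norm_num)
      have h2 : Differentiable ℂ (fun a : ℂ => ((a ^ K, (j : ℂ) * a ^ K) : ℂ × ℂ)) := by fun_prop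
      exact (h1.comp h2).differentiableOn.analyticOnNhd isOpen_univ
    have heq := (hdiff (p + M)).eq_of_eventuallyEq (hdiff M) hj
    obtain ⟨a, ha⟩ := IsAlgClosed.exists_pow_nat_eq s (show 0 < K by omega)
    have := congrFun heq a
    simp only [ha] at this
    exact this
  set Δ : ℂ × ℂ → ℂ := fun q => (gg T Cs k g q)^[p + M] e - (gg T Cs k g q)^[M] e with hΔ
  have hΔc : Continuous Δ := (hc _).continuous.sub (hc _).continuous
  have hlim : Tendsto (fun j : ℕ => Δ (γ / (j : ℂ), γ)) atTop (𝓝 (Δ (0, γ))) := by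
    have h1 : Tendsto (fun j : ℕ => ((γ / (j : ℂ), γ) : ℂ × ℂ)) atTop (𝓝 ((0 : ℂ), γ)) := by
      refine Tendsto.prodMk_nhds ?_ tendsto_const_nhds
      exact tendsto_const_div_atTop_nhds_zero_nat γ
    exact (hΔc.tendsto _).comp h1
  have hne' : Δ (0, γ) ≠ 0 := sub_ne_zero.2 hne
  have hev : ∀ᶠ j : ℕ in atTop, Δ (γ / (j : ℂ), γ) ≠ 0 := hlim.eventually_ne hne'
  obtain ⟨j, hj, hj2, hj3⟩ := (hcon.and_eventually (hev.and (eventually_gt_atTop 0))).exists
  apply hj2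
  have h1 := hline j hj (γ / (j : ℂ))
  have hj0 : (j : ℂ) ≠ 0 := by
    have : j ≠ 0 := by omega
    exact_mod_cast this
  rw [mul_div_cancel₀ _ hj0] at h1
  exact sub_eq_zero.2 h1

/-- pigeonhole choice of the slope -/
theorem slope_choice (Fs : Finset ℂ) (Ψ Ξ : ℂ → ℂ) (N₀ : ℕ) :
    ∃ j ∈ Finset.Icc N₀ (N₀ + Fs.card), ∀ e ∈ Fs, ‖Ξ e‖ ≤ 2 * ‖Ψ e + (j : ℂ) * Ξ e‖ := by
  classical
  by_contra hcon
  push Not at hcon
  choose! φ hφ1 hφ2 using hcon
  have hcard : Fs.card < (Finset.Icc N₀ (N₀ + Fs.card)).card := by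
    rw [Nat.card_Icc]; omega
  obtain ⟨j, hj, j', hj', hne, heq⟩ :=
    Finset.exists_ne_map_eq_of_card_lt_of_maps_to hcard (fun j hj => hφ1 j hj)
  have h1 := hφ2 j hj
  have h2 := hφ2 j' hj'
  rw [← heq] at h2
  set e := φ j
  have h3 : ‖((j : ℂ) - (j' : ℂ)) * Ξ e‖ ≤ ‖Ψ e + (j : ℂ) * Ξ e‖ + ‖Ψ e + (j' : ℂ) * Ξ e‖ := by
    have : ((j : ℂ) - (j' : ℂ)) * Ξ e = (Ψ e + (j : ℂ) * Ξ e) - (Ψ e + (j' : ℂ) * Ξ e) := by ring
    rw [this]
    exact norm_sub_le _ _
  have h4 : (1 : ℝ) ≤ ‖(j : ℂ) - (j' : ℂ)‖ := by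
    have h5 : (j : ℂ) - (j' : ℂ) = (((j : ℤ) - (j' : ℤ) : ℤ) : ℂ) := by push_cast; ring
    rw [h5, Complex.norm_intCast]
    have h6 : ((j : ℤ) - (j' : ℤ)) ≠ 0 := by
      intro h
      apply hne
      omega
    exact_mod_cast Int.one_le_abs h6
  rw [norm_mul] at h3
  have h7 : ‖Ξ e‖ ≤ ‖(j : ℂ) - (j' : ℂ)‖ * ‖Ξ e‖ := le_mul_of_one_le_left (norm_nonneg _) h4
  linarith

end Pool.Agent.H792R2.Dyn
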