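import Pool.Agent.H792R2.Dyn.Family

set_option autoImplicit false

open Filter Topology Metric Set Polynomial

namespace Pool.Agent.H792R2.Dyn

/-- The orbit of `c` under `g` lands on a repelling periodic cycle. -/
def LandsRepelling (g : ℂ → ℂ) (c : ℂ) : Prop :=
  ∃ M p : ℕ, 0 < p ∧ g^[p] (g^[M] c) = g^[M] c ∧ 1 < ‖deriv (g^[p]) (g^[M] c)‖

theorem tendsto_pow_punctured {l : ℕ} (hl : 1 ≤ l) :
    Tendsto (fun a : ℂ => a ^ l) (𝓝[≠] 0) (𝓝[≠] 0) := by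
  rw [tendsto_nhdsWithin_iff]
  refine ⟨?_, ?_⟩
  · have h1 : Continuous (fun a : ℂ => a ^ l) := by fun_prop
    have h2 := h1.tendsto 0
    rw [zero_pow (by omega)] at h2
    exact h2.mono_left nhdsWithin_le_nhds
  · filter_upwards [self_mem_nhdsWithin] with a ha
    exact pow_ne_zero _ ha

/-- Growth of the orbits of a split critical point. -/
theorem cluster_growth {f : ℂ → ℂ → ℂ} (hf : ContDiff ℂ 1 (fun p : ℂ × ℂ => f p.1 p.2))
    {c : ℂ} {k l : ℕ} (hk : 2 ≤ k) (hl : 1 ≤ l)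
    (hrot : ∀ ξ a : ℂ, ξ ^ (l * k) = 1 → f (ξ * a) = f a) (P h : ℂ → ℂ → ℂ)
    (hh : Continuous (fun p : ℂ × ℂ => h p.1 p.2))
    (hP : ∀ s t, HasDerivAt (P s) ((t ^ k - s) * h s t) t)
    (hPf : ∀ a t, f a (c + t) = P (a ^ (l * k)) t) (hh0 : h 0 0 ≠ 0) :
    ∃ C₀ : ℝ, 0 < C₀ ∧ ∀ (n : ℕ) (r B : ℝ) (ω : ℂ), 0 < r → ω ^ k = 1 →
      (∀ a, ‖a‖ ≤ r → ‖(f a)^[n + 1] (c + ω * a ^ l)‖ ≤ B) →
      ‖deriv ((f 0)^[n]) (f 0 c)‖ * r ^ (l * (k + 1)) ≤ C₀ * B := by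
  have hk0 : k ≠ 0 := by omega
  set ω₀ : ℂ := Complex.exp (2 * Real.pi * Complex.I / k) with hω₀
  have hprim : IsPrimitiveRoot ω₀ k := Complex.isPrimitiveRoot_exp k hk0
  have hω₀1 : ω₀ ^ k = 1 := hprim.pow_eq_one
  have hω₀ne : ω₀ ≠ 1 := hprim.ne_one (by omega)
  set κ : ℂ := h 0 0 * (1 - ω₀) * (1 / (k + 1) - 1) with hκ
  have hκ0 : κ ≠ 0 := by
    have h1 : (k : ℂ) + 1 ≠ 0 := Nat.cast_add_one_ne_zero k
    have h2 : (1 : ℂ) / (k + 1) - 1 ≠ 0 := by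
      have h3 : (1 : ℂ) / (k + 1) - 1 = -(k / (k + 1)) := by field_simp; ring
      rw [h3]
      exact neg_ne_zero.2 (div_ne_zero (by exact_mod_cast hk0) h1)
    exact mul_ne_zero (mul_ne_zero hh0 (sub_ne_zero.2 hω₀ne.symm)) h2
  have hκn : 0 < ‖κ‖ := norm_pos_iff.2 hκ0
  have hfd : Differentiable ℂ (fun p : ℂ × ℂ => f p.1 p.2) := hf.differentiable (by norm_num)
  have hval : ∀ ω : ℂ, Differentiable ℂ (fun a => f a (c + ω * a ^ l)) := by
    intro ω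
    have h1 : Differentiable ℂ (fun a : ℂ => ((a, c + ω * a ^ l) : ℂ × ℂ)) := by fun_prop
    exact hfd.comp h1
  refine ⟨2 / ‖κ‖, by positivity, ?_⟩
  intro n r B ω hr hω hB
  -- bounds for every member of the cluster
  have hω0 : ω ≠ 0 := by
    rintro rfl
    rw [zero_pow hk0] at hω
    exact zero_ne_one hω
  have hall : ∀ ω' : ℂ, ω' ^ k = 1 → ∀ a, ‖a‖ ≤ r →
      ‖(f a)^[n] (f a (c + ω' * a ^ l))‖ ≤ B := by
    intro ω' hω' a ha
    obtain ⟨ξ, hξ⟩ := IsAlgClosed.exists_pow_nat_eq (ω' / ω) (show 0 < l by omega)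
    have hξK : ξ ^ (l * k) = 1 := by
      rw [pow_mul, hξ, div_pow, hω', hω, div_one]
    have hξn : ‖ξ‖ = 1 := by
      have h1 : ‖ξ‖ ^ (l * k) = 1 := by rw [← norm_pow, hξK, norm_one]
      exact (pow_eq_one_iff_of_nonneg (norm_nonneg _)
        (Nat.mul_ne_zero (by omega) hk0)).1 h1
    have h2 := hB (ξ * a) (by rw [norm_mul, hξn, one_mul]; exact ha)
    rw [hrot ξ a hξK, mul_pow, hξ, ← mul_assoc, mul_div_cancel₀ _ hω0,
      Function.iterate_succ_apply] at h2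
    exact h2
  have hlim : Tendsto (fun a : ℂ => (f a (c + 1 * a ^ l) - f a (c + ω₀ * a ^ l)) /
      a ^ (l * (k + 1))) (𝓝[≠] 0) (𝓝 κ) := by
    have h1 := (split_diff (by omega : 1 ≤ k) hω₀1 P h hh hP).comp (tendsto_pow_punctured hl)
    refine h1.congr fun a => ?_
    simp only [Function.comp]
    rw [hPf, hPf, one_mul, ← pow_mul, ← pow_mul]
  have hz : (0 : ℂ) ^ l = 0 := zero_pow (by omega)
  have hcore := growth_core hf (hval 1) (hval ω₀) (v := f 0 c) (by rw [hz]; simp)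
    (by rw [hz]; simp) hlim n hr (hall 1 (one_pow k)) (hall ω₀ hω₀1)
  rw [mul_assoc] at hcore
  rw [div_mul_eq_mul_div, le_div_iff₀ hκn, mul_comm _ ‖κ‖]
  exact hcore

/-- Growth of the orbit of a point landing on a repelling cycle, non persistently. -/
theorem misi_growth {f : ℂ → ℂ → ℂ} (hf : ContDiff ℂ 1 (fun p : ℂ × ℂ => f p.1 p.2))
    {e : ℂ} {M p : ℕ} (hp : 0 < p) (hfix : (f 0)^[p] ((f 0)^[M] e) = (f 0)^[M] e)
    (hrep : 1 < ‖deriv ((f 0)^[p]) ((f 0)^[M] e)‖)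
    (hnp : ¬ ∀ᶠ a in 𝓝 (0 : ℂ), (f a)^[p + M] e = (f a)^[M] e) (B : ℝ) :
    ∃ (μ : ℝ) (D : ℕ) (C₀ : ℝ), 1 < μ ∧ ∀ (n : ℕ) (r : ℝ), 0 < r → r ≤ 1 →
      (∀ m ≤ n, ∀ a, ‖a‖ ≤ r → ‖(f a)^[m] e‖ ≤ B) → μ ^ n * r ^ D ≤ C₀ := by
  set v := (f 0)^[M] e with hv
  set lam := deriv ((f 0)^[p]) v with hlam
  have hgd : Differentiable ℂ ((f 0)^[p]) := (diff_right hf 0).iterate p
  have hpar : ∀ m, Differentiable ℂ (fun a => (f a)^[m] e) := by
    intro m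
    have h1 : Differentiable ℂ (fun q : ℂ × ℂ => (f q.1)^[m] q.2) :=
      (contDiff_iter hf m).differentiable (by norm_num)
    have h2 : Differentiable ℂ (fun a : ℂ => ((a, e) : ℂ × ℂ)) := by fun_prop
    exact h1.comp h2
  -- order of vanishing
  have han : AnalyticAt ℂ (fun a => (f a)^[p + M] e - (f a)^[M] e) 0 :=
    ((hpar _).sub (hpar _)).analyticAt 0
  obtain ⟨D, G, hG, hG0, hGe⟩ := (han.exists_eventuallyEq_pow_smul_nonzero_iff).2 (by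
    intro h
    apply hnp
    filter_upwards [h] with a ha
    exact sub_eq_zero.1 ha)
  have hlim : Tendsto (fun a : ℂ => ((f a)^[p + M] e - (f a)^[M] e) / a ^ D) (𝓝[≠] 0)
      (𝓝 (G 0)) := by
    have h1 : Tendsto G (𝓝[≠] 0) (𝓝 (G 0)) := hG.continuousAt.tendsto.mono_left nhdsWithin_le_nhds
    refine h1.congr' ?_
    filter_upwards [hGe.filter_mono nhdsWithin_le_nhds, self_mem_nhdsWithin] with a ha hane
    have ha' : a ^ D ≠ 0 := pow_ne_zero _ hane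
    rw [ha, sub_zero, smul_eq_mul, mul_div_cancel_left₀ _ ha']
  have hu0 : (fun a => (f a)^[p + M] e) 0 = v := by
    change (f 0)^[p + M] e = v
    rw [Function.iterate_add_apply]
    exact hfix
  have hder : ∀ j : ℕ, ‖deriv ((f 0)^[p * j]) v‖ = ‖lam‖ ^ j := by
    intro j
    have h1 : HasDerivAt ((f 0)^[p]) lam v := (hgd v).hasDerivAt
    have h2 := HasDerivAt.iterate v h1 hfix j
    rw [← Function.iterate_mul] at h2
    rw [h2.deriv, norm_pow]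
  -- the rate
  obtain ⟨μ, hμ1, hμp⟩ : ∃ μ : ℝ, 1 < μ ∧ μ ^ p ≤ ‖lam‖ := by
    have hc : Continuous (fun x : ℝ => x ^ p) := by fun_prop
    have h1 : ∀ᶠ x : ℝ in 𝓝 1, x ^ p < ‖lam‖ :=
      (hc.tendsto 1).eventually (Iio_mem_nhds (by simpa using hrep))
    have h2 : ∀ᶠ x : ℝ in 𝓝[>] 1, x ^ p < ‖lam‖ := h1.filter_mono nhdsWithin_le_nhds
    obtain ⟨x, hx, hx2⟩ := (h2.and self_mem_nhdsWithin).exists
    exact ⟨x, hx2, hx.le⟩
  have hlam0 : 0 < ‖lam‖ := by linarith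
  have hG0n : 0 < ‖G 0‖ := norm_pos_iff.2 hG0
  refine ⟨μ, D, μ ^ (M + p) * ‖lam‖ * (2 * |B| / ‖G 0‖) + μ ^ (M + p), hμ1, ?_⟩
  intro n r hr hr1 hb
  have hμ0 : 0 < μ := by linarith
  by_cases hn : n < M + p
  · have h1 : μ ^ n ≤ μ ^ (M + p) := pow_le_pow_right₀ hμ1.le hn.le
    have h2 : r ^ D ≤ 1 := pow_le_one₀ hr.le hr1
    have h3 : μ ^ n * r ^ D ≤ μ ^ (M + p) * 1 :=
      mul_le_mul h1 h2 (by positivity) (by positivity)
    have h4 : 0 ≤ μ ^ (M + p) * ‖lam‖ * (2 * |B| / ‖G 0‖) := by positivity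
    linarith
  · set j := (n - (M + p)) / p with hj
    have hj1 : p * j ≤ n - (M + p) := Nat.mul_div_le _ _
    have hj2 : n - (M + p) < p * (j + 1) := Nat.lt_mul_div_succ _ hp
    have hcore := growth_core hf (hpar (p + M)) (hpar M) hu0 rfl hlim (p * j) hr
      (M := B) (fun a ha => by
        rw [← Function.iterate_add_apply]
        exact hb _ (by omega) a ha) (fun a ha => by
        rw [← Function.iterate_add_apply]
        exact hb _ (by omega) a ha)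
    rw [hder j] at hcore
    have h1 : μ ^ n ≤ μ ^ (M + p) * ‖lam‖ * ‖lam‖ ^ j := by
      calc μ ^ n ≤ μ ^ ((M + p) + p * (j + 1)) := pow_le_pow_right₀ hμ1.le (by omega)
        _ = μ ^ (M + p) * (μ ^ p) ^ (j + 1) := by rw [pow_add, pow_mul]
        _ ≤ μ ^ (M + p) * ‖lam‖ ^ (j + 1) :=
            mul_le_mul_of_nonneg_left (pow_le_pow_left₀ (by positivity) hμp _) (by positivity)
        _ = μ ^ (M + p) * ‖lam‖ * ‖lam‖ ^ j := by rw [pow_succ]; ring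
    have h2 : ‖lam‖ ^ j * r ^ D ≤ 2 * |B| / ‖G 0‖ := by
      rw [le_div_iff₀ hG0n]
      calc ‖lam‖ ^ j * r ^ D * ‖G 0‖ = ‖G 0‖ * ‖lam‖ ^ j * r ^ D := by ring
        _ ≤ 2 * B := hcore
        _ ≤ 2 * |B| := by linarith [le_abs_self B]
    calc μ ^ n * r ^ D ≤ μ ^ (M + p) * ‖lam‖ * ‖lam‖ ^ j * r ^ D :=
          mul_le_mul_of_nonneg_right h1 (by positivity)
      _ = μ ^ (M + p) * ‖lam‖ * (‖lam‖ ^ j * r ^ D) := by ring
      _ ≤ μ ^ (M + p) * ‖lam‖ * (2 * |B| / ‖G 0‖) :=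
          mul_le_mul_of_nonneg_left h2 (by positivity)
      _ ≤ _ := by
          have : 0 < μ ^ (M + p) := by positivity
          linarith

end Pool.Agent.H792R2.Dyn
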