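import Pool.Agent.H792R2.Dyn.Choice

set_option autoImplicit false

open Filter Topology Metric Set Polynomial

namespace Pool.Agent.H792R2.Dyn

/-- the one-parameter family in the parameter `s` -/
noncomputable def fam (T : ℂ[X]) (Cs : Finset ℂ) (k : ℂ → ℕ) (g : ℂ[X]) (β s : ℂ) : ℂ[X] :=
  base T Cs k g s + C (β * s)

theorem PF_fam (T : ℂ[X]) (Cs : Finset ℂ) (k : ℂ → ℕ) (g : ℂ[X]) (β : ℂ) :
    PF (fam T Cs k g β) := by
  refine (PF_base T Cs k g).add ?_
  intro n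
  by_cases hn : n = 0
  · subst hn
    have h : (fun s : ℂ => (Polynomial.C (β * s)).coeff 0) = fun s => β * s := by ext s; simp
    rw [h]
    exact contDiff_const.mul contDiff_id
  · simpa [Polynomial.coeff_C, hn] using contDiff_const

theorem fam_natDegree (T : ℂ[X]) (Cs : Finset ℂ) (k : ℂ → ℕ) (g : ℂ[X]) (β s : ℂ) :
    (fam T Cs k g β s).natDegree ≤ T.natDegree := by
  refine (Polynomial.natDegree_add_le _ _).trans (max_le (base_natDegree _ _ _ _ _) ?_)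
  rw [Polynomial.natDegree_C]
  exact Nat.zero_le _

theorem fam_eval (T : ℂ[X]) (Cs : Finset ℂ) (k : ℂ → ℕ) (g : ℂ[X]) (β s z : ℂ) :
    (fam T Cs k g β s).eval z = gg T Cs k g (s, β * s) z := by
  simp [fam, gg]

theorem fam_zero {T : ℂ[X]} {Cs : Finset ℂ} {k : ℂ → ℕ} {g : ℂ[X]} (β : ℂ)
    (hT : derivative T = (∏ c ∈ Cs, (X - C c) ^ (k c)) * g) : fam T Cs k g β 0 = T := by
  unfold fam
  rw [base_zero hT, mul_zero, map_zero, add_zero]

theorem fam_derivative {T : ℂ[X]} (hd : 2 ≤ T.natDegree) {Cs : Finset ℂ} {k : ℂ → ℕ} {g : ℂ[X]}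
    (hT : derivative T = (∏ c ∈ Cs, (X - C c) ^ (k c)) * g) (β s : ℂ) :
    derivative (fam T Cs k g β s) = dfam Cs k g s := by
  unfold fam
  rw [derivative_add, derivative_C, add_zero, base_derivative hd hT]

/-- the derivative in `s` at `0` of the orbit of `e` splits into the contribution of the splitting
and `β` times the contribution of the additive constant -/
theorem fam_param_deriv (T : ℂ[X]) (Cs : Finset ℂ) (k : ℂ → ℕ) (g : ℂ[X]) (e : ℂ) (n : ℕ) :
    ∃ Ψ : ℂ, ∀ β : ℂ, HasDerivAt (fun s : ℂ => (gg T Cs k g (s, β * s))^[n] e)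
      (Ψ + β * deriv (fun γ : ℂ => (gg T Cs k g (0, γ))^[n] e) 0) 0 := by
  set Y : ℂ × ℂ → ℂ := fun q => (gg T Cs k g q)^[n] e with hY
  have hYd : HasFDerivAt Y (fderiv ℂ Y (0, 0)) (0, 0) :=
    ((gg_iter_contDiff T Cs k g e n).differentiable (by norm_num) _).hasFDerivAt
  refine ⟨fderiv ℂ Y (0, 0) (1, 0), fun β => ?_⟩
  have h1 : HasDerivAt (fun s : ℂ => ((s, β * s) : ℂ × ℂ)) ((1, β) : ℂ × ℂ) 0 := by
    have h2 : HasDerivAt (fun s : ℂ => β * s) (β * 1) 0 := (hasDerivAt_id (0 : ℂ)).const_mul β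
    rw [mul_one] at h2
    exact (hasDerivAt_id (0 : ℂ)).prodMk h2
  have h0 : ((fun s : ℂ => ((s, β * s) : ℂ × ℂ)) 0) = (0, 0) := by simp
  have h3 : HasDerivAt (fun s : ℂ => Y (s, β * s)) (fderiv ℂ Y (0, 0) (1, β)) 0 := by
    have hYd' : HasFDerivAt Y (fderiv ℂ Y (0, 0)) ((fun s : ℂ => ((s, β * s) : ℂ × ℂ)) 0) := by
      rw [h0]; exact hYd
    exact hYd'.comp_hasDerivAt 0 h1
  have h4 : HasDerivAt (fun γ : ℂ => Y (0, γ)) (fderiv ℂ Y (0, 0) (0, 1)) 0 := by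
    have h5 : HasDerivAt (fun γ : ℂ => (((0 : ℂ), γ) : ℂ × ℂ)) ((0, 1) : ℂ × ℂ) 0 :=
      (hasDerivAt_const (0 : ℂ) (0 : ℂ)).prodMk (hasDerivAt_id (0 : ℂ))
    exact hYd.comp_hasDerivAt 0 h5
  have h6 : ((1, β) : ℂ × ℂ) = (1, 0) + β • ((0, 1) : ℂ × ℂ) := by ext <;> simp
  rw [h6, map_add, map_smul, smul_eq_mul] at h3
  have h7 : deriv (fun γ : ℂ => (gg T Cs k g (0, γ))^[n] e) 0 = fderiv ℂ Y (0, 0) (0, 1) :=
    h4.deriv
  rw [h7]
  exact h3

/-- growth for an orbit with large parameter derivative -/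
theorem param_growth {x : ℂ → ℂ} (hx : Differentiable ℂ x) {K : ℕ} (hK : 1 ≤ K) {r B : ℝ}
    (hr : 0 < r) (hB : ∀ a, ‖a‖ ≤ r → ‖x (a ^ K)‖ ≤ B) : ‖deriv x 0‖ * r ^ K ≤ B := by
  have h1 : ∀ s ∈ sphere (0 : ℂ) (r ^ K), ‖x s‖ ≤ B := by
    intro s hs
    obtain ⟨a, ha⟩ := IsAlgClosed.exists_pow_nat_eq s (show 0 < K by omega)
    have h2 : ‖a‖ ^ K = r ^ K := by
      rw [← norm_pow, ha]
      simpa using hs
    have h3 : ‖a‖ = r := (pow_left_inj₀ (norm_nonneg _) hr.le (by omega)).1 h2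
    rw [← ha]
    exact hB a h3.le
  have h2 := Complex.norm_deriv_le_of_forall_mem_sphere_norm_le (by positivity)
    hx.diffContOnCl h1
  rwa [le_div_iff₀ (by positivity)] at h2

theorem gg_zero_fst {T : ℂ[X]} {Cs : Finset ℂ} {k : ℂ → ℕ} {g : ℂ[X]}
    (hT : derivative T = (∏ c ∈ Cs, (X - C c) ^ (k c)) * g) (γ : ℂ) :
    gg T Cs k g (0, γ) = fun w => T.eval w + γ := by
  ext z
  simp only [gg, base_zero hT]

theorem pow_contDiff {F : ℂ → ℂ[X]} (hPF : PF F) {N : ℕ} (K : ℕ)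
    (h : ∀ s, (F s).natDegree < N) :
    ContDiff ℂ 1 (fun p : ℂ × ℂ => (F (p.1 ^ K)).eval p.2) := by
  have h1 := hPF.contDiff_eval h
  have h2 : ContDiff ℂ 1 (fun p : ℂ × ℂ => ((p.1 ^ K, p.2) : ℂ × ℂ)) :=
    (contDiff_fst.pow K).prodMk contDiff_snd
  exact h1.comp h2

/-- The core statement with a fixed assignment of types to the critical points. -/
theorem core (T : ℂ[X]) (hd : 2 ≤ T.natDegree)
    (hdense : Dense {z | Attr (fun w => T.eval w) z}) {μ : ℝ} (hμ : 1 < μ)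
    (Cs Es Fs : Finset ℂ)
    (hCs : ∀ c ∈ Cs, 2 ≤ (derivative T).rootMultiplicity c ∧ ¬ Attr (fun w => T.eval w) c)
    (hEs : ∀ e ∈ Es, LandsRepelling (fun w => T.eval w) e ∧ ¬ Attr (fun w => T.eval w) e)
    (hFs : ∀ e ∈ Fs, ¬ Attr (fun w => T.eval w) e)
    (E : Set ℂ)
    (hcov : ∀ z, (derivative T).eval z = 0 →
      Attr (fun w => T.eval w) z ∨ z ∈ Cs ∨ z ∈ Es ∨ z ∈ Fs ∨ z ∈ E)
    (hexp : ∃ᶠ n : ℕ in atTop,
      (∀ c ∈ Cs, ∃ m ≤ n, μ ^ n ≤ ‖deriv ((fun w => T.eval w)^[m]) (T.eval c)‖) ∧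
      ∀ e ∈ Fs, ∃ m ≤ n, μ ^ n ≤ ‖deriv (fun γ : ℂ => (fun w => T.eval w + γ)^[m] e) 0‖) :
    ∀ ε > 0, ∃ S : ℂ[X], S.natDegree = T.natDegree ∧ (∀ i, ‖S.coeff i - T.coeff i‖ < ε) ∧
      ∀ z, (derivative S).eval z = 0 → ¬ Attr (fun w => S.eval w) z →
        z ∈ E ∧ (derivative S).rootMultiplicity z = (derivative T).rootMultiplicity z := by
  classical
  intro ε hε
  have hT' : derivative T ≠ 0 := by
    intro h
    have := Polynomial.derivative_eq_zero.1 h
    omega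
  obtain ⟨k, hk⟩ : ∃ k : ℂ → ℕ, k = fun c => (derivative T).rootMultiplicity c := ⟨_, rfl⟩
  obtain ⟨g, hT, hg⟩ : ∃ g : ℂ[X], derivative T = (∏ c ∈ Cs, (X - C c) ^ (k c)) * g ∧
      ∀ c ∈ Cs, g.eval c ≠ 0 := by
    subst hk
    exact exists_factor hT' Cs
  have hg0 : g ≠ 0 := by
    rintro rfl
    rw [mul_zero] at hT
    exact hT' hT
  have hk2 : ∀ c ∈ Cs, 2 ≤ k c := by
    subst hk
    exact fun c hc => (hCs c hc).1
  set K : ℕ := ∏ c ∈ Cs, k c with hKdef
  have hK : 1 ≤ K := Nat.one_le_iff_ne_zero.2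
    (Finset.prod_ne_zero_iff.2 fun c hc => by have := hk2 c hc; omega)
  set l : ℂ → ℕ := fun c => K / k c with hl
  have hlk : ∀ c ∈ Cs, l c * k c = K := fun c hc =>
    Nat.div_mul_cancel (Finset.dvd_prod_of_mem k hc)
  have hl1 : ∀ c ∈ Cs, 1 ≤ l c := by
    intro c hc
    by_contra h
    have h0 : l c = 0 := by omega
    have := hlk c hc
    rw [h0, zero_mul] at this
    omega
  -- choice of the slope
  have hnp : ∃ N₀ : ℕ, ∀ j ≥ N₀, ∀ e ∈ Es, ∃ M p : ℕ, 0 < p ∧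
      (fun w => T.eval w)^[p] ((fun w => T.eval w)^[M] e) = (fun w => T.eval w)^[M] e ∧
      1 < ‖deriv ((fun w => T.eval w)^[p]) ((fun w => T.eval w)^[M] e)‖ ∧
      ¬ ∀ᶠ a : ℂ in 𝓝 0, (gg T Cs k g (a ^ K, (j : ℂ) * a ^ K))^[p + M] e =
        (gg T Cs k g (a ^ K, (j : ℂ) * a ^ K))^[M] e := by
    have h1 : ∀ᶠ j : ℕ in atTop, ∀ e ∈ Es, ∃ M p : ℕ, 0 < p ∧
      (fun w => T.eval w)^[p] ((fun w => T.eval w)^[M] e) = (fun w => T.eval w)^[M] e ∧
      1 < ‖deriv ((fun w => T.eval w)^[p]) ((fun w => T.eval w)^[M] e)‖ ∧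
      ¬ ∀ᶠ a : ℂ in 𝓝 0, (gg T Cs k g (a ^ K, (j : ℂ) * a ^ K))^[p + M] e =
        (gg T Cs k g (a ^ K, (j : ℂ) * a ^ K))^[M] e := by
      rw [Filter.eventually_all_finset]
      intro e he
      obtain ⟨M, p, hp, h2, h3⟩ := (hEs e he).1
      filter_upwards [nonpersistent hd hT hK e (M := M) hp] with j hj
      exact ⟨M, p, hp, h2, h3, hj⟩
    exact Filter.eventually_atTop.1 h1
  obtain ⟨N₀, hN₀⟩ := hnp
  have hΨex := fun (n : ℕ) (e : ℂ) => fam_param_deriv T Cs k g e n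
  choose Ψ hΨ using hΨex
  set Ξ : ℕ → ℂ → ℂ := fun n e => deriv (fun γ : ℂ => (gg T Cs k g (0, γ))^[n] e) 0 with hΞ
  have hgg0 : ∀ γ : ℂ, gg T Cs k g (0, γ) = fun w => T.eval w + γ := gg_zero_fst hT
  obtain ⟨j, hj, hjfreq⟩ : ∃ j ∈ Finset.Icc N₀ (N₀ + Fs.card), ∃ᶠ n : ℕ in atTop,
      (∀ c ∈ Cs, ∃ m ≤ n, μ ^ n ≤ ‖deriv ((fun w => T.eval w)^[m]) (T.eval c)‖) ∧
      ∀ e ∈ Fs, ∃ m ≤ n, μ ^ n ≤ 2 * ‖Ψ m e + (j : ℂ) * Ξ m e‖ := by
    by_contra hcon
    have h1 : ∀ᶠ n : ℕ in atTop, ∀ j ∈ Finset.Icc N₀ (N₀ + Fs.card),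
        ¬ ((∀ c ∈ Cs, ∃ m ≤ n, μ ^ n ≤ ‖deriv ((fun w => T.eval w)^[m]) (T.eval c)‖) ∧
        ∀ e ∈ Fs, ∃ m ≤ n, μ ^ n ≤ 2 * ‖Ψ m e + (j : ℂ) * Ξ m e‖) := by
      rw [Filter.eventually_all_finset]
      intro j hj
      rw [← Filter.not_frequently]
      exact fun h2 => hcon ⟨j, hj, h2⟩
    obtain ⟨n, ⟨hn1, hn2⟩, hn3⟩ := (hexp.and_eventually h1).exists
    choose! me hme1 hme2 using hn2
    obtain ⟨j, hj, hj2⟩ := slope_choice Fs (fun e => Ψ (me e) e) (fun e => Ξ (me e) e) N₀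
    refine hn3 j hj ⟨hn1, fun e he => ⟨me e, hme1 e he, ?_⟩⟩
    have h3 := hme2 e he
    have h4 := hj2 e he
    have h5 : Ξ (me e) e = deriv (fun γ : ℂ => (fun w => T.eval w + γ)^[me e] e) 0 := by
      simp only [hΞ, hgg0]
    rw [← h5] at h3
    exact h3.trans h4
  have hjN : N₀ ≤ j := (Finset.mem_Icc.1 hj).1
  set β : ℂ := (j : ℂ) with hβ
  -- the family
  obtain ⟨F, hF⟩ : ∃ F : ℂ → ℂ[X], F = fam T Cs k g β := ⟨_, rfl⟩
  have hPF : PF F := by rw [hF]; exact PF_fam T Cs k g β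
  have hF0 : F 0 = T := by rw [hF]; exact fam_zero β hT
  have hFdeg : ∀ s, (F s).natDegree ≤ T.natDegree := by
    rw [hF]; exact fam_natDegree T Cs k g β
  have hFder : ∀ s, derivative (F s) = dfam Cs k g s := by
    rw [hF]; exact fam_derivative hd hT β
  have hFgg : ∀ s z, (F s).eval z = gg T Cs k g (s, β * s) z := by
    rw [hF]; exact fam_eval T Cs k g β
  clear hF
  have hlead : (F 0).coeff T.natDegree ≠ 0 := by
    rw [hF0]
    intro h
    have h2 := Polynomial.leadingCoeff_eq_zero.1 h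
    rw [h2] at hd
    simp at hd
  obtain ⟨R, ρ', hR1, hρ', hesc'⟩ := family_escape hd hPF hFdeg hlead
  have hR : 0 < R := by linarith
  set f : ℂ → ℂ → ℂ := fun a z => (F (a ^ K)).eval z with hf
  have hfc : ContDiff ℂ 1 (fun p : ℂ × ℂ => f p.1 p.2) :=
    pow_contDiff hPF (N := T.natDegree + 1) K (fun s => Nat.lt_succ_of_le (hFdeg s))
  have hfdiff : ∀ a, Differentiable ℂ (f a) := diff_right hfc
  have hf0 : f 0 = fun w => T.eval w := by
    ext z
    simp only [hf, zero_pow (show K ≠ 0 by omega), hF0]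
  have hfgg : ∀ a, f a = gg T Cs k g (a ^ K, β * a ^ K) := by
    intro a
    ext z
    simp only [hf, hFgg]
  have hrot : ∀ ξ a : ℂ, ξ ^ K = 1 → f (ξ * a) = f a := by
    intro ξ a hξ
    ext z
    simp only [hf, mul_pow, hξ, one_mul]
  set ρ : ℝ := min 1 ρ' with hρdef
  have hρ : 0 < ρ := lt_min one_pos hρ'
  have hpowK : ∀ a : ℂ, ‖a‖ < ρ → ‖a ^ K‖ < ρ' := by
    intro a ha
    rw [norm_pow]
    have h1 : ‖a‖ < 1 := lt_of_lt_of_le ha (min_le_left _ _)
    have h2 : ‖a‖ ^ K ≤ ‖a‖ ^ 1 := pow_le_pow_of_le_one (norm_nonneg _) h1.le hK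
    rw [pow_one] at h2
    exact lt_of_le_of_lt h2 (lt_of_lt_of_le ha (min_le_right _ _))
  have hesc : ∀ a, ‖a‖ < ρ → ∀ z, R ≤ ‖z‖ → 2 * ‖z‖ ≤ ‖f a z‖ := fun a ha z hz =>
    (hesc' _ (hpowK a ha)).2 z hz
  -- the marked points
  let ι := (Σ c : {c // c ∈ Cs}, {ω // ω ∈ Polynomial.nthRootsFinset (k c) (1 : ℂ)}) ⊕
    ({e // e ∈ Es} ⊕ {e // e ∈ Fs})
  let ζ : ι → ℂ → ℂ := fun i => match i with
    | Sum.inl ⟨c, ω⟩ => fun a => (c : ℂ) + (ω : ℂ) * a ^ (l c)
    | Sum.inr (Sum.inl e) => fun _ => (e : ℂ)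
    | Sum.inr (Sum.inr e) => fun _ => (e : ℂ)
  have hζd : ∀ i, Differentiable ℂ (ζ i) := by
    rintro (⟨c, ω⟩ | (e | e))
    · change Differentiable ℂ (fun a : ℂ => (c : ℂ) + (ω : ℂ) * a ^ (l c))
      fun_prop
    · exact differentiable_const _
    · exact differentiable_const _
  have hζ0 : ∀ i, ¬ Attr (f 0) (ζ i 0) := by
    rintro (⟨⟨c, hc⟩, ω⟩ | (⟨e, he⟩ | ⟨e, he⟩))
    · rw [hf0]
      change ¬ Attr (fun w => T.eval w) (c + (ω : ℂ) * 0 ^ (l c))
      rw [zero_pow (by have := hl1 c hc; omega), mul_zero, add_zero]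
      exact (hCs c hc).2
    · rw [hf0]; exact (hEs e he).2
    · rw [hf0]; exact hFs e he
  have hb : ∀ i n, ‖(f 0)^[n] (ζ i 0)‖ ≤ R := by
    intro i n
    by_contra hcon
    push Not at hcon
    exact hζ0 i (attr_large (hfdiff 0) hR (hesc 0 (by simpa using hρ)) n hcon.le)
  -- growth for every marked point
  have hgi : ∀ i, ∃ (μi : ℝ) (Di : ℕ) (Ci : ℝ), 1 < μi ∧ ∀ n : ℕ,
      ((∀ c ∈ Cs, ∃ m ≤ n, μ ^ n ≤ ‖deriv ((fun w => T.eval w)^[m]) (T.eval c)‖) ∧
      ∀ e ∈ Fs, ∃ m ≤ n, μ ^ n ≤ 2 * ‖Ψ m e + (j : ℂ) * Ξ m e‖) → ∀ r, 0 < r → r ≤ 1 →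
      (∀ m ≤ n + 1, ∀ a, ‖a‖ ≤ r → ‖(f a)^[m] (ζ i a)‖ ≤ R + 1) → μi ^ (n + 1) * r ^ Di ≤ Ci := by
    rintro (⟨⟨c, hc⟩, ⟨ω, hω⟩⟩ | (⟨e, he⟩ | ⟨e, he⟩))
    · have hω1 : ω ^ (k c) = 1 :=
        (Polynomial.mem_nthRootsFinset (by have := hk2 c hc; omega) _).1 hω
      obtain ⟨C₀, hC₀, hcl⟩ := cluster_growth (f := f) hfc (c := c) (k := k c) (l := l c)
        (hk2 c hc) (hl1 c hc) (by
          intro ξ a hξ
          rw [hlk c hc] at hξ
          exact hrot ξ a hξ) (fun s t => (F s).eval (c + t)) (hfac Cs k g c)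
        (hfac_continuous Cs k g c) (by
          intro s t
          have h1 : HasDerivAt (fun z => (F s).eval z) ((derivative (F s)).eval (c + t)) (c + t) :=
            (F s).hasDerivAt _
          rw [hFder, dfam_eval hc] at h1
          exact h1.comp_const_add c t) (by
          intro a t
          simp only [hf, hlk c hc]) (hfac_zero_ne (hg c hc))
      refine ⟨μ, l c * (k c + 1), μ * (C₀ * (R + 1)), hμ, ?_⟩
      intro n hn r hr hr1 hbd
      obtain ⟨m, hmn, h2⟩ := hn.1 c hc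
      have h1 := hcl m r (R + 1) ω hr hω1 (fun a ha => hbd (m + 1) (by omega) a ha)
      rw [hf0] at h1
      calc μ ^ (n + 1) * r ^ (l c * (k c + 1)) = μ * (μ ^ n * r ^ (l c * (k c + 1))) := by
            rw [pow_succ]; ring
        _ ≤ μ * (‖deriv ((fun w => T.eval w)^[m]) (T.eval c)‖ * r ^ (l c * (k c + 1))) := by
            apply mul_le_mul_of_nonneg_left _ (by linarith)
            exact mul_le_mul_of_nonneg_right h2 (by positivity)
        _ ≤ μ * (C₀ * (R + 1)) := mul_le_mul_of_nonneg_left h1 (by linarith)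
    · obtain ⟨M, p, hp, h2, h3, h4⟩ := hN₀ j hjN e he
      obtain ⟨μi, Di, Ci, hμi, hgr⟩ := misi_growth (f := f) hfc (e := e) (M := M) hp
        (by rw [hf0]; exact h2) (by rw [hf0]; exact h3) (by
          intro h5
          apply h4
          filter_upwards [h5] with a ha
          rw [← hfgg a]
          exact ha) (R + 1)
      exact ⟨μi, Di, Ci, hμi, fun n _ r hr hr1 hbd => hgr (n + 1) r hr hr1 hbd⟩
    · refine ⟨μ, K, μ * (2 * (R + 1)), hμ, ?_⟩
      intro n hn r hr hr1 hbd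
      obtain ⟨m, hmn, h2⟩ := hn.2 e he
      have hxd : Differentiable ℂ (fun s : ℂ => (gg T Cs k g (s, β * s))^[m] e) := by
        have h1 : Differentiable ℂ (fun q : ℂ × ℂ => (gg T Cs k g q)^[m] e) :=
          (gg_iter_contDiff T Cs k g e m).differentiable (by norm_num)
        have h2 : Differentiable ℂ (fun s : ℂ => ((s, β * s) : ℂ × ℂ)) := by fun_prop
        exact h1.comp h2
      have h1 := param_growth hxd hK hr (B := R + 1) (fun a ha => by
        have h3 := hbd m (by omega) a ha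
        rw [hfgg a] at h3
        exact h3)
      rw [(hΨ m e β).deriv] at h1
      calc μ ^ (n + 1) * r ^ K = μ * (μ ^ n * r ^ K) := by rw [pow_succ]; ring
        _ ≤ μ * ((2 * ‖Ψ m e + (j : ℂ) * Ξ m e‖) * r ^ K) := by
            apply mul_le_mul_of_nonneg_left _ (by linarith)
            exact mul_le_mul_of_nonneg_right h2 (by positivity)
        _ = μ * (2 * (‖Ψ m e + (j : ℂ) * Ξ m e‖ * r ^ K)) := by ring
        _ ≤ μ * (2 * (R + 1)) := by
            apply mul_le_mul_of_nonneg_left _ (by linarith)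
            linarith
  choose μi Di Ci hμi hgi' using hgi
  obtain ⟨ν, hν1, hν⟩ : ∃ ν : ℝ, 1 < ν ∧ ∀ i, ν ≤ μi i := by
    have h1 : ∀ᶠ x : ℝ in 𝓝[>] 1, ∀ i, x ≤ μi i := by
      rw [Filter.eventually_all]
      intro i
      have h2 : ∀ᶠ x : ℝ in 𝓝 1, x < μi i := Iio_mem_nhds (hμi i)
      filter_upwards [h2.filter_mono nhdsWithin_le_nhds] with x hx using hx.le
    obtain ⟨x, hx, hx2⟩ := (h1.and self_mem_nhdsWithin).exists
    exact ⟨x, hx2, hx⟩
  have hgrow : ∃ᶠ n : ℕ in atTop, ∀ i, ∀ r, 0 < r → r < ρ →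
      (∀ m ≤ n, ∀ a, ‖a‖ ≤ r → ‖(f a)^[m] (ζ i a)‖ ≤ R + 1) →
      ν ^ n * r ^ (∑ i, Di i) ≤ ∑ i, |Ci i| := by
    rw [Filter.frequently_atTop] at hjfreq ⊢
    intro N
    obtain ⟨n, hn, hgood⟩ := hjfreq N
    refine ⟨n + 1, by omega, ?_⟩
    intro i r hr hr1 hbd
    have hr1' : r ≤ 1 := (hr1.trans_le (min_le_left _ _)).le
    have h1 := hgi' i n hgood r hr hr1' hbd
    have h2 : Di i ≤ ∑ i, Di i := Finset.single_le_sum (f := Di) (fun _ _ => Nat.zero_le _)
      (Finset.mem_univ i)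
    have h3 : Ci i ≤ ∑ i, |Ci i| := (le_abs_self _).trans
      (Finset.single_le_sum (f := fun i => |Ci i|) (fun _ _ => abs_nonneg _) (Finset.mem_univ i))
    calc ν ^ (n + 1) * r ^ (∑ i, Di i) ≤ (μi i) ^ (n + 1) * r ^ (Di i) :=
          mul_le_mul (pow_le_pow_left₀ (by linarith) (hν i) _)
            (pow_le_pow_of_le_one hr.le hr1' h2) (by positivity)
            (pow_nonneg (by linarith [hμi i]) _)
      _ ≤ Ci i := h1
      _ ≤ _ := h3
  have hprin := principle hfc hR hρ hesc ζ hζd hb (by rw [hf0]; exact hdense) hν1 _ _ hgrow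
  -- smallness conditions
  have hcoef : ∀ᶠ a : ℂ in 𝓝 0, ∀ i ∈ Finset.range (T.natDegree + 1),
      ‖(F (a ^ K)).coeff i - T.coeff i‖ < ε := by
    rw [Filter.eventually_all_finset]
    intro i _
    have h1 : Continuous (fun a : ℂ => ‖(F (a ^ K)).coeff i - T.coeff i‖) := by
      have h2 := (hPF i).continuous
      have h3 : Continuous (fun a : ℂ => (F (a ^ K)).coeff i) := h2.comp (by fun_prop)
      exact (h3.sub continuous_const).norm
    have h0 : ‖(F ((0 : ℂ) ^ K)).coeff i - T.coeff i‖ < ε := by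
      rw [zero_pow (by omega), hF0, sub_self, norm_zero]
      exact hε
    exact (h1.tendsto 0).eventually (Iio_mem_nhds h0)
  have hstab : ∀ᶠ a : ℂ in 𝓝 0, ∀ z ∈ g.roots.toFinset, Attr (fun w => T.eval w) z →
      Attr (f a) z := by
    rw [Filter.eventually_all_finset]
    intro z _
    by_cases hz : Attr (fun w => T.eval w) z
    · have h1 := attr_stable hfc hR hρ hesc (z₀ := z) (by rw [hf0]; exact hz)
      have h2 : Tendsto (fun a : ℂ => ((a, z) : ℂ × ℂ)) (𝓝 0) (𝓝 (0, z)) := by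
        have : Continuous (fun a : ℂ => ((a, z) : ℂ × ℂ)) := by fun_prop
        exact this.tendsto 0
      filter_upwards [h2.eventually h1] with a ha _ using ha
    · exact Eventually.of_forall fun a h => absurd h hz
  have hsep : ∀ᶠ a : ℂ in 𝓝 0, ∀ z ∈ g.roots.toFinset, ∀ c ∈ Cs, (z - c) ^ (k c) - a ^ K ≠ 0 := by
    rw [Filter.eventually_all_finset]
    intro z hz
    rw [Filter.eventually_all_finset]
    intro c hc
    have hzc : z ≠ c := by
      rintro rfl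
      rw [Multiset.mem_toFinset, Polynomial.mem_roots hg0] at hz
      exact hg z hc hz
    have h1 : Continuous (fun a : ℂ => (z - c) ^ (k c) - a ^ K) := by fun_prop
    have h2 : (fun a : ℂ => (z - c) ^ (k c) - a ^ K) 0 ≠ 0 := by
      change (z - c) ^ (k c) - (0 : ℂ) ^ K ≠ 0
      rw [zero_pow (by omega), sub_zero]
      exact pow_ne_zero _ (sub_ne_zero.2 hzc)
    exact h1.continuousAt.eventually_ne h2
  obtain ⟨δ, hδ, hδs⟩ := Metric.mem_nhds_iff.1 (hcoef.and (hstab.and hsep))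
  obtain ⟨a, ha, hattr⟩ := hprin (min δ ρ) (lt_min hδ hρ)
  have ha1 : a ∈ ball (0 : ℂ) δ := by
    rw [mem_ball_zero_iff]; exact lt_of_lt_of_le ha (min_le_left _ _)
  have ha2 : ‖a‖ < ρ := lt_of_lt_of_le ha (min_le_right _ _)
  obtain ⟨hc1, hc2, hc3⟩ := hδs ha1
  refine ⟨F (a ^ K), ?_, ?_, ?_⟩
  · exact le_antisymm (hFdeg _) (Polynomial.le_natDegree_of_ne_zero (hesc' _ (hpowK a ha2)).1)
  · intro i
    by_cases hi : i ∈ Finset.range (T.natDegree + 1)
    · exact hc1 i hi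
    · rw [Finset.mem_range] at hi
      have h1 := hFdeg (a ^ K)
      rw [Polynomial.coeff_eq_zero_of_natDegree_lt (by omega),
        Polynomial.coeff_eq_zero_of_natDegree_lt (by omega), sub_zero, norm_zero]
      exact hε
  · intro z hz hzna
    change ¬ Attr (f a) z at hzna
    have hSder := hFder (a ^ K)
    rw [hFder] at hz
    unfold dfam at hz
    rw [Polynomial.eval_mul, Polynomial.eval_prod] at hz
    rcases mul_eq_zero.1 hz with h | h
    · rw [Finset.prod_eq_zero_iff] at h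
      obtain ⟨c, hc, h⟩ := h
      simp only [Polynomial.eval_sub, Polynomial.eval_pow, Polynomial.eval_X,
        Polynomial.eval_C] at h
      have h1 : (z - c) ^ (k c) = (a ^ (l c)) ^ (k c) := by
        rw [← pow_mul, hlk c hc]
        exact sub_eq_zero.1 h
      have hkc : 0 < k c := by have := hk2 c hc; omega
      obtain ⟨ω, hω1, hω2⟩ : ∃ ω : ℂ, ω ^ (k c) = 1 ∧ z = c + ω * a ^ (l c) := by
        by_cases ha0 : a = 0
        · refine ⟨1, one_pow _, ?_⟩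
          rw [ha0, zero_pow (by have := hl1 c hc; omega)] at h1 ⊢
          rw [zero_pow hkc.ne'] at h1
          have h2 := pow_eq_zero_iff hkc.ne' |>.1 h1
          rw [mul_zero, add_zero]
          exact sub_eq_zero.1 h2
        · have hal : a ^ (l c) ≠ 0 := pow_ne_zero _ ha0
          refine ⟨(z - c) / a ^ (l c), ?_, ?_⟩
          · rw [div_pow, h1, div_self (pow_ne_zero _ hal)]
          · rw [div_mul_cancel₀ _ hal]; ring
      have h3 := hattr (Sum.inl ⟨⟨c, hc⟩, ⟨ω, (Polynomial.mem_nthRootsFinset hkc _).2 hω1⟩⟩)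
      rw [hω2] at hzna
      exact absurd h3 hzna
    · have hzg : z ∈ g.roots.toFinset := by
        rw [Multiset.mem_toFinset, Polynomial.mem_roots hg0]
        exact h
      have hzT : (derivative T).eval z = 0 := by
        rw [hT, Polynomial.eval_mul, h, mul_zero]
      rcases hcov z hzT with h1 | h1 | h1 | h1 | h1
      · exact absurd (hc2 z hzg h1) hzna
      · exact absurd h (hg z h1)
      · exact absurd (hattr (Sum.inr (Sum.inl ⟨z, h1⟩))) hzna
      · exact absurd (hattr (Sum.inr (Sum.inr ⟨z, h1⟩))) hzna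
      · refine ⟨h1, ?_⟩
        have hzCs : ∀ c ∈ Cs, z ≠ c := by
          rintro c hc rfl
          exact hg z hc h
        have e1 : (derivative (F (a ^ K))).rootMultiplicity z = g.rootMultiplicity z := by
          rw [hSder]
          unfold dfam
          have hp : (∏ c ∈ Cs, ((X - C c) ^ (k c) - C (a ^ K)) : ℂ[X]).eval z ≠ 0 := by
            rw [Polynomial.eval_prod, Finset.prod_ne_zero_iff]
            intro c hc
            simpa using hc3 z hzg c hc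
          have hp0 : (∏ c ∈ Cs, ((X - C c) ^ (k c) - C (a ^ K)) : ℂ[X]) ≠ 0 := by
            intro h0
            rw [h0] at hp
            simp at hp
          rw [Polynomial.rootMultiplicity_mul (mul_ne_zero hp0 hg0),
            Polynomial.rootMultiplicity_eq_zero (fun h0 => hp h0), zero_add]
        have e2 : (derivative T).rootMultiplicity z = g.rootMultiplicity z := by
          have hp : (∏ c ∈ Cs, (X - C c) ^ (k c) : ℂ[X]).eval z ≠ 0 := by
            rw [Polynomial.eval_prod, Finset.prod_ne_zero_iff]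
            intro c hc
            have := pow_ne_zero (k c) (sub_ne_zero.2 (hzCs c hc))
            simpa using this
          have hp0 : (∏ c ∈ Cs, (X - C c) ^ (k c) : ℂ[X]) ≠ 0 := by
            intro h0
            rw [h0] at hp
            simp at hp
          rw [hT, Polynomial.rootMultiplicity_mul (mul_ne_zero hp0 hg0),
            Polynomial.rootMultiplicity_eq_zero (fun h0 => hp h0), zero_add]
        rw [e1, e2]

end Pool.Agent.H792R2.Dyn
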