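import Pool.Agent.H792R2.Dyn.Principle

set_option autoImplicit false

open Filter Topology Metric Set

namespace Pool.Agent.H792R2.Dyn

/-- If two orbits issued from points `u a`, `w a` that differ by `κ a ^ D + …` stay bounded up to
time `n` for all parameters of modulus at most `r`, then the derivative along the central orbit
is at most `C / r ^ D`. -/
theorem growth_core {f : ℂ → ℂ → ℂ} (hf : ContDiff ℂ 1 (fun p : ℂ × ℂ => f p.1 p.2))
    {u w : ℂ → ℂ} (hu : Differentiable ℂ u) (hw : Differentiable ℂ w) {v κ : ℂ}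
    (hu0 : u 0 = v) (hw0 : w 0 = v) {D : ℕ}
    (hlim : Tendsto (fun a => (u a - w a) / a ^ D) (𝓝[≠] 0) (𝓝 κ)) (n : ℕ) {r M : ℝ}
    (hr : 0 < r) (hub : ∀ a, ‖a‖ ≤ r → ‖(f a)^[n] (u a)‖ ≤ M)
    (hwb : ∀ a, ‖a‖ ≤ r → ‖(f a)^[n] (w a)‖ ≤ M) :
    ‖κ‖ * ‖deriv ((f 0)^[n]) v‖ * r ^ D ≤ 2 * M := by
  set G : ℂ × ℂ → ℂ := fun p => (f p.1)^[n] p.2 with hG
  have hGc : ContDiff ℂ 1 G := contDiff_iter hf n
  set L : ℂ := deriv ((f 0)^[n]) v with hL
  have hGs : HasStrictFDerivAt G (fderiv ℂ G (0, v)) (0, v) :=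
    (hGc.contDiffAt (x := ((0 : ℂ), v))).hasStrictFDerivAt (by norm_num)
  have hLd : ∀ t : ℂ, fderiv ℂ G (0, v) (0, t) = L * t := by
    intro t
    have h1 : HasFDerivAt G (fderiv ℂ G ((0 : ℂ), v)) ((0 : ℂ), v) :=
      (hGc.differentiable (by norm_num) _).hasFDerivAt
    have h2 : HasDerivAt (fun w : ℂ => (((0 : ℂ), w) : ℂ × ℂ)) ((0, 1) : ℂ × ℂ) v :=
      (hasDerivAt_const v (0 : ℂ)).prodMk (hasDerivAt_id v)
    have h3 : HasDerivAt ((f 0)^[n]) (fderiv ℂ G (0, v) (0, 1)) v := h1.comp_hasDerivAt v h2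
    have h4 : ((0, t) : ℂ × ℂ) = t • ((0, 1) : ℂ × ℂ) := by ext <;> simp
    rw [h4, map_smul, hL, h3.deriv, smul_eq_mul, mul_comm]
  set E : ℂ → ℂ := fun a => (f a)^[n] (u a) - (f a)^[n] (w a) with hE
  have hEd : Differentiable ℂ E := by
    have h1 : Differentiable ℂ G := hGc.differentiable (by norm_num)
    exact (h1.comp (differentiable_id.prodMk hu)).sub (h1.comp (differentiable_id.prodMk hw))
  -- the quotient has a limit at zero
  have hElim : Tendsto (fun a => E a / a ^ D) (𝓝[≠] 0) (𝓝 (L * κ)) := by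
    have ht : Tendsto (fun a : ℂ => (((a, u a), (a, w a)) : (ℂ × ℂ) × (ℂ × ℂ))) (𝓝 0)
        (𝓝 (((0 : ℂ), v), ((0 : ℂ), v))) := by
      have hc : Continuous (fun a : ℂ => (((a, u a), (a, w a)) : (ℂ × ℂ) × (ℂ × ℂ))) := by
        have := hu.continuous
        have := hw.continuous
        fun_prop
      have := hc.tendsto 0
      simpa only [hu0, hw0] using this
    have ho := hGs.isLittleO.comp_tendsto ht
    have ho2 : (fun a : ℂ => E a - L * (u a - w a)) =o[𝓝 0] fun a : ℂ => u a - w a := by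
      have h1 : (fun a : ℂ => E a - L * (u a - w a)) = ((fun p : (ℂ × ℂ) × (ℂ × ℂ) =>
          G p.1 - G p.2 - (fderiv ℂ G (0, v)) (p.1 - p.2)) ∘ fun a : ℂ => ((a, u a), (a, w a))) := by
        ext a
        change E a - L * (u a - w a) = G (a, u a) - G (a, w a) -
          (fderiv ℂ G (0, v)) ((a, u a) - (a, w a))
        rw [Prod.mk_sub_mk, sub_self, hLd]
      rw [h1]
      refine ho.trans_isBigO ?_
      rw [Asymptotics.isBigO_iff]
      refine ⟨1, Eventually.of_forall fun a => ?_⟩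
      simp [Function.comp, Prod.norm_def]
    have ho3 : Tendsto (fun a : ℂ => (E a - L * (u a - w a)) / a ^ D) (𝓝[≠] 0) (𝓝 0) := by
      have h1 : (fun a : ℂ => (E a - L * (u a - w a)) / a ^ D) =o[𝓝[≠] 0]
          fun a : ℂ => (u a - w a) / a ^ D := by
        have h2 := (ho2.mono (nhdsWithin_le_nhds (s := {0}ᶜ))).mul_isBigO
          (Asymptotics.isBigO_refl (fun a : ℂ => (a ^ D)⁻¹) (𝓝[≠] 0))
        simpa only [div_eq_mul_inv] using h2
      have h3 : (fun a : ℂ => (u a - w a) / a ^ D) =O[𝓝[≠] 0] fun _ => (1 : ℝ) :=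
        hlim.isBigO_one ℝ
      exact (Asymptotics.isLittleO_one_iff ℝ).1 (h1.trans_isBigO h3)
    have h4 := ho3.add (hlim.const_mul L)
    rw [zero_add] at h4
    refine h4.congr' ?_
    filter_upwards [self_mem_nhdsWithin] with a ha
    have ha' : a ^ D ≠ 0 := pow_ne_zero _ ha
    field_simp
    ring
  -- removable singularity
  set Q : ℂ → ℂ := Function.update (fun a => E a / a ^ D) 0 (L * κ) with hQ
  have hQne : ∀ a, a ≠ 0 → Q a = E a / a ^ D := fun a ha => Function.update_of_ne ha _ _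
  have hQ0 : Q 0 = L * κ := Function.update_self _ _ _
  have hQc : ContinuousAt Q 0 := by
    rw [hQ, continuousAt_update_same]
    exact hElim
  have hQd : Differentiable ℂ Q := by
    intro a
    by_cases ha : a = 0
    · subst ha
      refine (Complex.analyticAt_of_differentiable_on_punctured_nhds_of_continuousAt ?_
        hQc).differentiableAt
      filter_upwards [self_mem_nhdsWithin] with z hz
      have h1 : (fun a => E a / a ^ D) =ᶠ[𝓝 z] Q := by
        filter_upwards [isOpen_ne.mem_nhds hz] with t ht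
        exact (hQne t ht).symm
      refine DifferentiableAt.congr_of_eventuallyEq ?_ h1.symm
      exact (hEd z).div (by fun_prop) (pow_ne_zero _ hz)
    · have h1 : (fun a => E a / a ^ D) =ᶠ[𝓝 a] Q := by
        filter_upwards [isOpen_ne.mem_nhds ha] with t ht
        exact (hQne t ht).symm
      refine DifferentiableAt.congr_of_eventuallyEq ?_ h1.symm
      exact (hEd a).div (by fun_prop) (pow_ne_zero _ ha)
  have hmax : ‖Q 0‖ ≤ 2 * M / r ^ D := by
    refine Complex.norm_le_of_forall_mem_frontier_norm_le (U := ball (0 : ℂ) r)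
      isBounded_ball hQd.diffContOnCl ?_ (subset_closure (mem_ball_self hr))
    intro z hz
    rw [frontier_ball _ hr.ne'] at hz
    have hzn : ‖z‖ = r := by simpa using hz
    have hz0 : z ≠ 0 := by
      rintro rfl
      rw [norm_zero] at hzn
      exact hr.ne hzn
    rw [hQne z hz0, norm_div, norm_pow, hzn]
    have h1 : ‖E z‖ ≤ 2 * M := by
      calc ‖E z‖ ≤ ‖(f z)^[n] (u z)‖ + ‖(f z)^[n] (w z)‖ := norm_sub_le _ _
        _ ≤ M + M := add_le_add (hub z hzn.le) (hwb z hzn.le)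
        _ = 2 * M := by ring
    exact div_le_div_of_nonneg_right h1 (by positivity)
  rw [hQ0, norm_mul, le_div_iff₀ (by positivity)] at hmax
  rw [mul_comm ‖κ‖]
  exact hmax

/-- Difference of the two critical values after splitting a critical point. `p s` is a family of
functions with derivative `(t ^ k - s) * h s t` (coordinates centred at the critical point). -/
theorem split_diff {k : ℕ} (hk : 1 ≤ k) {ω : ℂ} (hω : ω ^ k = 1) (P : ℂ → ℂ → ℂ)
    (h : ℂ → ℂ → ℂ) (hh : Continuous (fun p : ℂ × ℂ => h p.1 p.2))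
    (hP : ∀ s t, HasDerivAt (P s) ((t ^ k - s) * h s t) t) :
    Tendsto (fun b : ℂ => (P (b ^ k) b - P (b ^ k) (ω * b)) / b ^ (k + 1)) (𝓝[≠] 0)
      (𝓝 (h 0 0 * (1 - ω) * (1 / (k + 1) - 1))) := by
  -- integral formula
  set τ : ℝ → ℂ := fun θ => ω + θ * (1 - ω) with hτ
  have hτd : ∀ θ : ℝ, HasDerivAt τ (1 - ω) θ := by
    intro θ
    have h1 : HasDerivAt (fun θ : ℝ => (θ : ℂ)) 1 θ := Complex.ofRealCLM.hasDerivAt
    have h2 : HasDerivAt (fun θ : ℝ => ω + (θ : ℂ) * (1 - ω)) (1 * (1 - ω)) θ :=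
      (h1.mul_const (1 - ω)).const_add ω
    rw [one_mul] at h2
    exact h2
  have hτc : Continuous τ := by rw [hτ]; fun_prop
  set I : ℂ → ℂ := fun b => ∫ θ in (0 : ℝ)..1, ((τ θ) ^ k - 1) * h (b ^ k) (b * τ θ) with hI
  have hIc : Continuous I := by
    apply intervalIntegral.continuous_parametric_intervalIntegral_of_continuous'
    have h1 : Continuous (fun q : ℂ × ℝ => ((q.1 ^ k, q.1 * τ q.2) : ℂ × ℂ)) := by fun_prop
    have h2 := hh.comp h1
    have h3 : Continuous (fun q : ℂ × ℝ => (τ q.2) ^ k - 1) := by fun_prop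
    exact h3.mul h2
  have hform : ∀ b : ℂ, P (b ^ k) b - P (b ^ k) (ω * b) = b ^ (k + 1) * ((1 - ω) * I b) := by
    intro b
    have h1 : ∀ θ ∈ uIcc (0 : ℝ) 1, HasDerivAt (fun θ : ℝ => P (b ^ k) (b * τ θ))
        (((b * τ θ) ^ k - b ^ k) * h (b ^ k) (b * τ θ) * (b * (1 - ω))) θ := by
      intro θ _
      exact (hP (b ^ k) (b * τ θ)).scomp θ ((hτd θ).const_mul b) |>.congr_deriv (by
        rw [smul_eq_mul]; ring)
    have h2 : Continuous (fun θ : ℝ => ((b * τ θ) ^ k - b ^ k) * h (b ^ k) (b * τ θ) *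
        (b * (1 - ω))) := by
      have h3 : Continuous (fun θ : ℝ => (((b ^ k), b * τ θ) : ℂ × ℂ)) := by fun_prop
      have h4 := hh.comp h3
      have h5 : Continuous (fun θ : ℝ => ((b * τ θ) ^ k - b ^ k)) := by fun_prop
      exact (h5.mul h4).mul continuous_const
    have h3 := intervalIntegral.integral_eq_sub_of_hasDerivAt h1
      (h2.intervalIntegrable _ _)
    have h4 : τ 1 = 1 := by simp [hτ]
    have h5 : τ 0 = ω := by simp [hτ]
    rw [h4, h5, mul_one, mul_comm b ω] at h3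
    rw [← h3, hI, ← intervalIntegral.integral_const_mul, ← intervalIntegral.integral_const_mul]
    apply intervalIntegral.integral_congr
    intro θ _
    simp only [mul_pow, pow_succ]
    ring
  have hI0 : (1 - ω) * I 0 = h 0 0 * (1 - ω) * (1 / (k + 1) - 1) := by
    have h1 : ∀ θ ∈ uIcc (0 : ℝ) 1, HasDerivAt (fun θ : ℝ => (τ θ) ^ (k + 1) / (k + 1) - τ θ)
        (((τ θ) ^ k - 1) * (1 - ω)) θ := by
      intro θ _
      have h2 := ((hτd θ).pow (k + 1)).div_const ((k : ℂ) + 1)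
      have h3 := h2.sub (hτd θ)
      refine h3.congr_deriv ?_
      have : (k : ℂ) + 1 ≠ 0 := Nat.cast_add_one_ne_zero k
      simp only [Nat.add_sub_cancel, Nat.cast_add, Nat.cast_one]
      field_simp
    have h2 : Continuous (fun θ : ℝ => ((τ θ) ^ k - 1) * (1 - ω)) := by fun_prop
    have h3 := intervalIntegral.integral_eq_sub_of_hasDerivAt h1 (h2.intervalIntegrable _ _)
    have h4 : τ 1 = 1 := by simp [hτ]
    have h5 : τ 0 = ω := by simp [hτ]
    rw [h4, h5, intervalIntegral.integral_mul_const] at h3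
    have hk0 : k ≠ 0 := by omega
    have h6 : I 0 = (∫ θ in (0 : ℝ)..1, ((τ θ) ^ k - 1)) * h 0 0 := by
      rw [hI, ← intervalIntegral.integral_mul_const]
      simp [hk0]
    have h7 : ω ^ (k + 1) = ω := by rw [pow_succ, hω, one_mul]
    rw [h7, one_pow] at h3
    rw [h6]
    have h8 : (1 - ω) * ((∫ θ in (0 : ℝ)..1, ((τ θ) ^ k - 1)) * h 0 0) =
        ((∫ θ in (0 : ℝ)..1, ((τ θ) ^ k - 1)) * (1 - ω)) * h 0 0 := by ring
    rw [h8, h3]
    ring
  rw [← hI0]
  have h1 : Tendsto (fun b : ℂ => (1 - ω) * I b) (𝓝[≠] 0) (𝓝 ((1 - ω) * I 0)) :=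
    ((continuous_const.mul hIc).tendsto 0).mono_left nhdsWithin_le_nhds
  refine h1.congr' ?_
  filter_upwards [self_mem_nhdsWithin] with b hb
  have hb' : b ^ (k + 1) ≠ 0 := pow_ne_zero _ hb
  rw [hform b, mul_div_cancel_left₀ _ hb']

end Pool.Agent.H792R2.Dyn
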