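import Pool.Agent.H792R2.Dyn.Basic
import Pool.Agent.Helper114.MontelSol

set_option autoImplicit false

open Filter Topology Metric Set

namespace Pool.Agent.H792R2.Dyn

/-- Combinatorial part: exit times with linear growth along a sequence have bounded gaps
infinitely often, simultaneously for finitely many exit times. -/
theorem gaps {ι : Type} [Fintype ι] (e : ι → ℕ → ℕ) (he : ∀ i j, e i j ≤ e i (j + 1)) (q : ℕ)
    (hq : ∃ᶠ J in atTop, ∀ i, e i J ≤ q * (J + 1)) :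
    ∀ j₀ : ℕ, ∃ j ≥ j₀, ∀ i, e i (j + 1) < e i j + (Fintype.card ι * q + 1) := by
  classical
  intro j₀
  by_contra hcon
  push Not at hcon
  set B := Fintype.card ι * q + 1 with hB
  set S : ℕ → ℕ := fun j => ∑ i, e i j with hS
  have h1 : ∀ j ≥ j₀, S j + B ≤ S (j + 1) := by
    intro j hj
    obtain ⟨i, hi⟩ := hcon j hj
    simp only [hS]
    rw [← Finset.add_sum_erase _ _ (Finset.mem_univ i),
      ← Finset.add_sum_erase _ (fun i => e i (j + 1)) (Finset.mem_univ i)]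
    have h2 : ∑ x ∈ Finset.univ.erase i, e x j ≤ ∑ x ∈ Finset.univ.erase i, e x (j + 1) :=
      Finset.sum_le_sum fun x _ => he x j
    omega
  have h3 : ∀ l, B * l ≤ S (j₀ + l) := by
    intro l
    induction l with
    | zero => simp
    | succ l ih =>
      have h2 := h1 (j₀ + l) (Nat.le_add_right _ _)
      have e1 : j₀ + (l + 1) = j₀ + l + 1 := by omega
      rw [e1, Nat.mul_succ]
      omega
  obtain ⟨J, hJ, hJq⟩ := (hq.and_eventually
    (eventually_ge_atTop (j₀ + B * j₀ + B + 1))).exists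
  have h4 := h3 (J - j₀)
  have hJj : j₀ + (J - j₀) = J := by omega
  rw [hJj] at h4
  have h5 : S J ≤ Fintype.card ι * (q * (J + 1)) := by
    calc S J ≤ ∑ _i : ι, q * (J + 1) := Finset.sum_le_sum fun i _ => hJ i
      _ = Fintype.card ι * (q * (J + 1)) := by simp
  have h6 : Fintype.card ι * (q * (J + 1)) = (B - 1) * (J + 1) := by
    rw [hB]; simp [Nat.mul_assoc]
  rw [h6] at h5
  obtain ⟨t, ht⟩ : ∃ t, J = j₀ + t := ⟨J - j₀, by omega⟩
  subst ht
  have h7 : j₀ + t - j₀ = t := by omega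
  rw [h7] at h4
  have hB1 : B = (B - 1) + 1 := by omega
  have h8 : B * t ≤ (B - 1) * (j₀ + t + 1) := h4.trans h5
  have h9 : B * t = (B - 1) * t + t := by
    conv_lhs => rw [hB1]
    ring
  have h10 : (B - 1) * (j₀ + t + 1) = (B - 1) * t + (B - 1) * (j₀ + 1) := by ring
  have h11 : t ≤ (B - 1) * (j₀ + 1) := by omega
  have h12 : (B - 1) * (j₀ + 1) ≤ B * (j₀ + 1) := Nat.mul_le_mul_right _ (by omega)
  have h13 : B * (j₀ + 1) = B * j₀ + B := by ring
  omega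

/-- Simultaneous selection: finitely many non-constant holomorphic functions can be moved into
a dense open set at the same time. -/
theorem select {ι : Type} [Fintype ι] (Φ : ι → ℂ → ℂ)
    (hΦ : ∀ i, DifferentiableOn ℂ (Φ i) (ball 0 1))
    (hnc : ∀ i, ∃ x ∈ ball (0 : ℂ) 1, ∃ y ∈ ball (0 : ℂ) 1, Φ i x ≠ Φ i y)
    {Bs : Set ℂ} (hBo : IsOpen Bs) (hBd : Dense Bs) :
    ∃ α ∈ ball (0 : ℂ) 1, ∀ i, Φ i α ∈ Bs := by
  classical
  have key : ∀ s : Finset ι, ∃ V : Set ℂ, IsOpen V ∧ V.Nonempty ∧ V ⊆ ball 0 1 ∧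
      ∀ i ∈ s, ∀ α ∈ V, Φ i α ∈ Bs := by
    intro s
    induction s using Finset.induction_on with
    | empty =>
      exact ⟨ball 0 1, isOpen_ball, ⟨0, mem_ball_self one_pos⟩, Subset.rfl, by simp⟩
    | insert i s his ih =>
      obtain ⟨V, hVo, ⟨x, hx⟩, hVb, hV⟩ := ih
      have han : AnalyticOnNhd ℂ (Φ i) (ball 0 1) := (hΦ i).analyticOnNhd isOpen_ball
      have hxb := hVb hx
      have hmap : 𝓝 (Φ i x) ≤ Filter.map (Φ i) (𝓝 x) := by
        rcases (han x hxb).eventually_constant_or_nhds_le_map_nhds with h | h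
        · exfalso
          have heq := han.eqOn_of_preconnected_of_eventuallyEq
            (analyticOnNhd_const (v := Φ i x)) (convex_ball (0 : ℂ) 1).isPreconnected hxb h
          obtain ⟨u, hu, v, hv, huv⟩ := hnc i
          exact huv ((heq hu).trans (heq hv).symm)
        · exact h
      have himg : Φ i '' V ∈ 𝓝 (Φ i x) := hmap (image_mem_map (hVo.mem_nhds hx))
      obtain ⟨w, hwB, hwV⟩ := hBd.inter_nhds_nonempty himg
      obtain ⟨y, hyV, rfl⟩ := hwV
      have hcont : ContinuousOn (Φ i) V := (hΦ i).continuousOn.mono hVb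
      refine ⟨V ∩ Φ i ⁻¹' Bs, hcont.isOpen_inter_preimage hVo hBo, ⟨y, hyV, hwB⟩,
        fun z hz => hVb hz.1, ?_⟩
      intro k hk α hα
      rcases Finset.mem_insert.1 hk with rfl | hk
      · exact hα.2
      · exact hV k hk α hα.1
  obtain ⟨V, -, ⟨α, hα⟩, hVb, hV⟩ := key Finset.univ
  exact ⟨α, hVb hα, fun i => hV i (Finset.mem_univ i) α hα⟩

/-- **Simultaneous escape principle.** -/
theorem principle {ι : Type} [Fintype ι] {f : ℂ → ℂ → ℂ}
    (hf : ContDiff ℂ 1 (fun p : ℂ × ℂ => f p.1 p.2)) {R ρ : ℝ} (hR : 0 < R) (hρ : 0 < ρ)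
    (hesc : ∀ a, ‖a‖ < ρ → ∀ z, R ≤ ‖z‖ → 2 * ‖z‖ ≤ ‖f a z‖)
    (ζ : ι → ℂ → ℂ) (hζ : ∀ i, Differentiable ℂ (ζ i))
    (hb : ∀ i n, ‖(f 0)^[n] (ζ i 0)‖ ≤ R) (hdense : Dense {z | Attr (f 0) z})
    {μ : ℝ} (hμ : 1 < μ) (D : ℕ) (C : ℝ)
    (hgrow : ∃ᶠ n : ℕ in atTop, ∀ i, ∀ r, 0 < r → r < ρ →
      (∀ m ≤ n, ∀ a, ‖a‖ ≤ r → ‖(f a)^[m] (ζ i a)‖ ≤ R + 1) → μ ^ n * r ^ D ≤ C) :
    ∀ δ > 0, ∃ a : ℂ, ‖a‖ < δ ∧ ∀ i, Attr (f a) (ζ i a) := by
  classical
  intro δ hδ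
  have hdiff : ∀ a, Differentiable ℂ (f a) := diff_right hf
  -- the orbits as functions of the parameter
  set y : ι → ℂ → ℕ → ℂ := fun i a m => (f a)^[m] (ζ i a) with hy
  have hyd : ∀ i m, Differentiable ℂ (fun a => y i a m) := by
    intro i m
    have h1 : Differentiable ℂ (fun p : ℂ × ℂ => (f p.1)^[m] p.2) :=
      (contDiff_iter hf m).differentiable (by norm_num)
    exact h1.comp (differentiable_id.prodMk (hζ i))
  -- initial radius
  obtain ⟨ρ₁, hρ₁, hρ₁ρ, hinit⟩ : ∃ ρ₁ > 0, ρ₁ < ρ ∧ ∀ i a, ‖a‖ ≤ ρ₁ → ‖ζ i a‖ ≤ R + 1 := by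
    have h1 : ∀ᶠ a : ℂ in 𝓝 0, ∀ i, ‖ζ i a‖ < R + 1 := by
      rw [Filter.eventually_all]
      intro i
      have h0 : ‖ζ i 0‖ < R + 1 := by
        have := hb i 0
        simp only [Function.iterate_zero, id] at this
        linarith
      exact ((hζ i).continuous.norm.tendsto 0).eventually (Iio_mem_nhds h0)
    obtain ⟨η, hη, hηs⟩ := Metric.mem_nhds_iff.1 h1
    refine ⟨min (η / 2) (ρ / 2), by positivity, ?_, ?_⟩
    · exact lt_of_le_of_lt (min_le_right _ _) (by linarith)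
    · intro i a ha
      have h2 : a ∈ ball (0 : ℂ) η := by
        rw [mem_ball_zero_iff]
        exact lt_of_le_of_lt (ha.trans (min_le_left _ _)) (by linarith)
      exact (hηs h2 i).le
  set r : ℕ → ℝ := fun j => ρ₁ / 2 ^ j with hr
  have hrpos : ∀ j, 0 < r j := fun j => by positivity
  have hrle : ∀ j, r j ≤ ρ₁ := fun j => div_le_self hρ₁.le (one_le_pow₀ (by norm_num))
  have hrlt : ∀ j, r j < ρ := fun j => lt_of_le_of_lt (hrle j) hρ₁ρ
  have hrsucc : ∀ j, r (j + 1) = r j / 2 := by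
    intro j
    simp only [hr, pow_succ]
    field_simp
  -- exit times
  have hexit : ∀ n, (∀ i, ∀ r, 0 < r → r < ρ →
      (∀ m ≤ n, ∀ a, ‖a‖ ≤ r → ‖(f a)^[m] (ζ i a)‖ ≤ R + 1) → μ ^ n * r ^ D ≤ C) →
      ∀ j, C < μ ^ n * (r j) ^ D → ∀ i, ∃ m ≤ n, ∃ a, ‖a‖ ≤ r j ∧ R + 1 < ‖y i a m‖ := by
    intro n hn j hj i
    by_contra hcon
    push Not at hcon
    have := hn i (r j) (hrpos j) (hrlt j) (fun m hm a ha => hcon m hm a ha)
    linarith
  have hex : ∀ i j, ∃ m, ∃ a, ‖a‖ ≤ r j ∧ R + 1 < ‖y i a m‖ := by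
    intro i j
    have h1 : Tendsto (fun n : ℕ => μ ^ n * (r j) ^ D) atTop atTop :=
      (tendsto_pow_atTop_atTop_of_one_lt hμ).atTop_mul_const (pow_pos (hrpos j) D)
    obtain ⟨n, hn, hn2⟩ := (hgrow.and_eventually (h1.eventually (eventually_gt_atTop C))).exists
    obtain ⟨m, -, a, ha, ha2⟩ := hexit n hn j hn2 i
    exact ⟨m, a, ha, ha2⟩
  set e : ι → ℕ → ℕ := fun i j => Nat.find (hex i j) with he
  have hespec : ∀ i j, ∃ a, ‖a‖ ≤ r j ∧ R + 1 < ‖y i a (e i j)‖ := fun i j => Nat.find_spec (hex i j)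
  have hemin : ∀ i j m, m < e i j → ∀ a, ‖a‖ ≤ r j → ‖y i a m‖ ≤ R + 1 := by
    intro i j m hm a ha
    have := Nat.find_min (hex i j) hm
    push Not at this
    exact this a ha
  have hele : ∀ i j m, (∃ a, ‖a‖ ≤ r j ∧ R + 1 < ‖y i a m‖) → e i j ≤ m :=
    fun i j m h => Nat.find_min' (hex i j) h
  have hemono : ∀ i j, e i j ≤ e i (j + 1) := by
    intro i j
    obtain ⟨a, ha, ha2⟩ := hespec i (j + 1)
    refine hele i j _ ⟨a, ha.trans ?_, ha2⟩
    rw [hrsucc]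
    linarith [hrpos j]
  have hepos : ∀ i j, 1 ≤ e i j := by
    intro i j
    by_contra hcon
    have h0 : e i j = 0 := by omega
    obtain ⟨a, ha, ha2⟩ := hespec i j
    rw [h0] at ha2
    have := hinit i a (ha.trans (hrle j))
    simp only [hy, Function.iterate_zero, id] at ha2
    linarith
  -- linear growth along a sequence
  obtain ⟨q, hq0, hq⟩ : ∃ q : ℕ, 0 < q ∧ ∃ᶠ J in atTop, ∀ i, e i J ≤ q * (J + 1) := by
    have hs1 : 1 < Real.sqrt μ := by
      rw [Real.lt_sqrt (by norm_num)]; simpa using hμ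
    set ν := Real.sqrt μ with hν
    have hνsq : ν ^ 2 = μ := Real.sq_sqrt (by linarith)
    obtain ⟨q, hq⟩ := pow_unbounded_of_one_lt ((2 : ℝ) ^ D) hs1
    have hq' : (2 : ℝ) ^ D ≤ ν ^ (q + 1) := by
      refine hq.le.trans ?_
      exact pow_le_pow_right₀ hs1.le (Nat.le_succ q)
    refine ⟨q + 1, Nat.succ_pos q, ?_⟩
    rw [Filter.frequently_atTop]
    intro J₀
    have h1 : Tendsto (fun n : ℕ => ν ^ n * ρ₁ ^ D) atTop atTop :=
      (tendsto_pow_atTop_atTop_of_one_lt hs1).atTop_mul_const (pow_pos hρ₁ D)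
    obtain ⟨n, hn, hn2, hn3⟩ := (hgrow.and_eventually ((h1.eventually
      (eventually_gt_atTop C)).and (eventually_ge_atTop ((q + 1) * J₀)))).exists
    have hn3' : (q + 1) * J₀ ≤ n := hn3
    refine ⟨n / (q + 1), ?_, ?_⟩
    · rw [Nat.le_div_iff_mul_le (Nat.succ_pos q)]
      rw [Nat.mul_comm]
      exact hn3'
    · intro i
      have h2 : C < μ ^ n * (r (n / (q + 1))) ^ D := by
        have h3 : ((2 : ℝ) ^ D) ^ (n / (q + 1)) ≤ ν ^ n := by
          calc ((2 : ℝ) ^ D) ^ (n / (q + 1)) ≤ (ν ^ (q + 1)) ^ (n / (q + 1)) :=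
                pow_le_pow_left₀ (by positivity) hq' _
            _ = ν ^ ((q + 1) * (n / (q + 1))) := by rw [← pow_mul]
            _ ≤ ν ^ n := pow_le_pow_right₀ hs1.le (Nat.mul_div_le n (q + 1))
        have h4 : ν ^ n * ρ₁ ^ D ≤ μ ^ n * (r (n / (q + 1))) ^ D := by
          have hpos : (0 : ℝ) < (2 ^ (n / (q + 1))) ^ D := by positivity
          have e1 : ((2 : ℝ) ^ (n / (q + 1))) ^ D = ((2 : ℝ) ^ D) ^ (n / (q + 1)) := by
            rw [← pow_mul, ← pow_mul, Nat.mul_comm]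
          have e2 : μ ^ n = ν ^ n * ν ^ n := by
            rw [← hνsq, ← pow_mul, two_mul, pow_add]
          simp only [hr, div_pow]
          rw [← mul_div_assoc, le_div_iff₀ hpos, e1, e2]
          have hνn : 0 < ν ^ n := by positivity
          have hρD : 0 < ρ₁ ^ D := by positivity
          calc ν ^ n * ρ₁ ^ D * ((2 : ℝ) ^ D) ^ (n / (q + 1))
              ≤ ν ^ n * ρ₁ ^ D * ν ^ n := mul_le_mul_of_nonneg_left h3 (by positivity)
            _ = ν ^ n * ν ^ n * ρ₁ ^ D := by ring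
        linarith
      obtain ⟨m, hm, ha⟩ := hexit n hn _ h2 i
      have h5 : e i (n / (q + 1)) ≤ m := hele i _ m ha
      have h6 : n < (q + 1) * (n / (q + 1) + 1) := by
        have := Nat.lt_mul_div_succ n (Nat.succ_pos q)
        simpa using this
      omega
  have hgap := gaps e hemono q hq
  set B := Fintype.card ι * q + 1 with hB
  choose jj hjj1 hjj2 using hgap
  -- uniform bound
  obtain ⟨M, hM⟩ : ∃ M : ℝ, ∀ l ≤ B, ∀ a z : ℂ, ‖a‖ ≤ ρ₁ → ‖z‖ ≤ R + 1 → ‖(f a)^[l] z‖ ≤ M := by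
    have h1 : ∀ l : ℕ, ∃ Ml : ℝ, ∀ p ∈ closedBall (0 : ℂ) ρ₁ ×ˢ closedBall (0 : ℂ) (R + 1),
        ‖(f p.1)^[l] p.2‖ ≤ Ml := fun l =>
      ((isCompact_closedBall (0 : ℂ) ρ₁).prod
        (isCompact_closedBall (0 : ℂ) (R + 1))).exists_bound_of_continuousOn
        (contDiff_iter hf l).continuous.continuousOn
    choose Ml hMl using h1
    refine ⟨∑ l ∈ Finset.range (B + 1), |Ml l|, ?_⟩
    intro l hl a z ha hz
    have h2 := hMl l (a, z) ⟨by simpa using ha, by simpa using hz⟩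
    refine h2.trans ((le_abs_self _).trans ?_)
    exact Finset.single_le_sum (f := fun l => |Ml l|) (fun _ _ => abs_nonneg _)
      (Finset.mem_range.2 (Nat.lt_succ_of_le hl))
  -- the rescaled functions
  set Y : ι → ℕ → ℂ → ℂ := fun i k α => y i ((r (jj k) : ℂ) * α) (e i (jj k + 1)) with hY
  have hnorm : ∀ k (α : ℂ), ‖(r (jj k) : ℂ) * α‖ = r (jj k) * ‖α‖ := by
    intro k α
    rw [norm_mul, Complex.norm_real, Real.norm_eq_abs, abs_of_pos (hrpos _)]
  have hYd : ∀ i k, DifferentiableOn ℂ (Y i k) (ball 0 1) := by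
    intro i k
    have h1 : Differentiable ℂ (fun α : ℂ => (r (jj k) : ℂ) * α) := by fun_prop
    exact ((hyd i _).comp h1).differentiableOn
  have hYb : ∀ i k, ∀ α ∈ ball (0 : ℂ) 1, ‖Y i k α‖ ≤ M := by
    intro i k α hα
    rw [mem_ball_zero_iff] at hα
    have ha : ‖(r (jj k) : ℂ) * α‖ ≤ r (jj k) := by
      rw [hnorm]
      nlinarith [hrpos (jj k), norm_nonneg α]
    have h1 := hepos i (jj k)
    have h2 := hjj2 k i
    have h3 := hemono i (jj k)
    have h4 := hemin i (jj k) (e i (jj k) - 1) (by omega) _ ha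
    have h5 : e i (jj k + 1) = (e i (jj k + 1) - (e i (jj k) - 1)) + (e i (jj k) - 1) := by omega
    simp only [hY, hy] at h4 ⊢
    rw [h5, Function.iterate_add_apply]
    exact hM _ (by omega) _ _ (ha.trans (hrle _)) h4
  set 𝒰 : Ultrafilter ℕ := hyperfilter ℕ with h𝒰
  have h𝒰le : (𝒰 : Filter ℕ) ≤ atTop := Nat.hyperfilter_le_atTop
  have hlim := fun i => Pool.Agent.Helper114.Montel.montel isOpen_ball (Y i) (hYd i) M (hYb i) 𝒰
  choose Φ hΦd hΦlim using hlim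
  have hΦ0 : ∀ i, ‖Φ i 0‖ ≤ R := by
    intro i
    have h1 : Tendsto (fun k => Y i k 0) 𝒰 (𝓝 (Φ i 0)) :=
      (hΦlim i).tendsto_at (mem_ball_self one_pos)
    refine le_of_tendsto h1.norm (Eventually.of_forall fun k => ?_)
    simp only [hY, hy, mul_zero]
    exact hb i _
  have hΦ1 : ∀ i, ∃ α ∈ ball (0 : ℂ) 1, R + 1 ≤ ‖Φ i α‖ := by
    intro i
    have h1 : ∀ k, ∃ α : ℂ, α ∈ closedBall (0 : ℂ) (1 / 2) ∧ R + 1 < ‖Y i k α‖ := by
      intro k
      obtain ⟨a, ha, ha2⟩ := hespec i (jj k + 1)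
      have hr0 : (r (jj k) : ℂ) ≠ 0 := by exact_mod_cast (hrpos (jj k)).ne'
      refine ⟨a / (r (jj k) : ℂ), ?_, ?_⟩
      · rw [mem_closedBall_zero_iff, norm_div, Complex.norm_real, Real.norm_eq_abs,
          abs_of_pos (hrpos _), div_le_iff₀ (hrpos _)]
        rw [hrsucc] at ha
        linarith
      · simp only [hY]
        rw [mul_div_cancel₀ _ hr0]
        exact ha2
    choose α hα1 hα2 using h1
    have hle : ((𝒰.map α : Ultrafilter ℂ) : Filter ℂ) ≤ 𝓟 (closedBall 0 (1 / 2)) := by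
      rw [le_principal_iff, Ultrafilter.coe_map, Filter.mem_map]
      exact Filter.mem_of_superset Filter.univ_mem fun n _ => hα1 n
    obtain ⟨β, hβ, hβlim⟩ := (isCompact_closedBall (0 : ℂ) (1 / 2)).ultrafilter_le_nhds _ hle
    have hβb : β ∈ ball (0 : ℂ) 1 := by
      rw [mem_closedBall_zero_iff] at hβ
      rw [mem_ball_zero_iff]
      linarith
    have hαt : Tendsto α 𝒰 (𝓝 β) := hβlim
    have hαt' : Tendsto α 𝒰 (𝓝[ball 0 1] β) := by
      rw [tendsto_nhdsWithin_iff]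
      refine ⟨hαt, Eventually.of_forall fun k => ?_⟩
      have := hα1 k
      rw [mem_closedBall_zero_iff] at this
      rw [mem_ball_zero_iff]
      linarith
    have h2 : Tendsto (fun k => Y i k (α k)) 𝒰 (𝓝 (Φ i β)) :=
      (hΦlim i).tendsto_comp ((hΦd i).continuousOn β hβb) hβb hαt'
    exact ⟨β, hβb, ge_of_tendsto h2.norm (Eventually.of_forall fun k => (hα2 k).le)⟩
  have hBo : IsOpen {z | Attr (f 0) z} := by
    rw [isOpen_iff_mem_nhds]
    intro z hz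
    have h1 := attr_stable hf hR hρ hesc hz
    have h2 : Tendsto (fun w : ℂ => ((0 : ℂ), w)) (𝓝 z) (𝓝 ((0 : ℂ), z)) := by
      have : Continuous (fun w : ℂ => ((0 : ℂ), w)) := by fun_prop
      exact this.tendsto z
    exact h2.eventually h1
  obtain ⟨α₀, hα₀, hsel⟩ := select Φ hΦd (fun i => by
    obtain ⟨x, hx, hx2⟩ := hΦ1 i
    refine ⟨x, hx, 0, mem_ball_self one_pos, fun h => ?_⟩
    rw [h] at hx2
    linarith [hΦ0 i]) hBo hdense
  have hrt : Tendsto (fun k => r (jj k)) atTop (𝓝 0) := by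
    have h1 : Tendsto r atTop (𝓝 0) := by
      simp only [hr]
      exact tendsto_const_nhds.div_atTop (tendsto_pow_atTop_atTop_of_one_lt (by norm_num))
    exact h1.comp (tendsto_atTop_mono hjj1 tendsto_id)
  have hat : Tendsto (fun k => (r (jj k) : ℂ) * α₀) 𝒰 (𝓝 0) := by
    have h1 : Tendsto (fun k => (r (jj k) : ℂ)) 𝒰 (𝓝 ((0 : ℝ) : ℂ)) :=
      (Complex.continuous_ofReal.tendsto 0).comp (hrt.mono_left h𝒰le)
    have h2 := h1.mul_const α₀
    simpa using h2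
  have hfin : ∀ i, ∀ᶠ k in (𝒰 : Filter ℕ), Attr (f ((r (jj k) : ℂ) * α₀))
      (ζ i ((r (jj k) : ℂ) * α₀)) := by
    intro i
    have h1 := attr_stable hf hR hρ hesc (hsel i)
    have h2 : Tendsto (fun k => (((r (jj k) : ℂ) * α₀, Y i k α₀) : ℂ × ℂ)) 𝒰
        (𝓝 ((0 : ℂ), Φ i α₀)) := hat.prodMk_nhds ((hΦlim i).tendsto_at hα₀)
    filter_upwards [h2.eventually h1] with k hk
    exact attr_of_iterate (hdiff _) _ hk
  have hall := Filter.eventually_all.2 hfin
  have hδ' : ∀ᶠ k in (𝒰 : Filter ℕ), ‖(r (jj k) : ℂ) * α₀‖ < δ := by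
    have := hat.norm
    rw [norm_zero] at this
    exact this.eventually (Iio_mem_nhds hδ)
  obtain ⟨k, hk1, hk2⟩ := (hall.and hδ').exists
  exact ⟨_, hk2, hk1⟩

end Pool.Agent.H792R2.Dyn
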