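import Pool.Agent.H792R2.Dyn.Cluster

set_option autoImplicit false

open Filter Topology Metric Set Polynomial

namespace Pool.Agent.H792R2.Dyn

/-- the derivative of the splitting family -/
noncomputable def dfam (Cs : Finset ℂ) (k : ℂ → ℕ) (g : ℂ[X]) (s : ℂ) : ℂ[X] :=
  (∏ c ∈ Cs, ((X - C c) ^ (k c) - C s)) * g

/-- the splitting family -/
noncomputable def base (T : ℂ[X]) (Cs : Finset ℂ) (k : ℂ → ℕ) (g : ℂ[X]) (s : ℂ) : ℂ[X] :=
  C (T.coeff 0) + anti T.natDegree (dfam Cs k g s)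

theorem exists_factor {T' : ℂ[X]} (hT' : T' ≠ 0) (Cs : Finset ℂ) :
    ∃ g : ℂ[X], T' = (∏ c ∈ Cs, (X - C c) ^ (T'.rootMultiplicity c)) * g ∧
      ∀ c ∈ Cs, g.eval c ≠ 0 := by
  classical
  have h1 : (∏ c ∈ Cs, (X - C c) ^ (T'.rootMultiplicity c)) ∣ T' := by
    apply Finset.prod_dvd_of_coprime
    · intro a _ b _ hab
      have h2 := Polynomial.pairwise_coprime_X_sub_C (K := ℂ) (s := id) Function.injective_id hab
      exact IsCoprime.pow h2
    · intro c _
      exact Polynomial.pow_rootMultiplicity_dvd _ _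
  obtain ⟨g, hg⟩ := h1
  refine ⟨g, hg, ?_⟩
  intro c hc h0
  obtain ⟨g', hg'⟩ := Polynomial.dvd_iff_isRoot.2 (show IsRoot g c from h0)
  apply Polynomial.pow_rootMultiplicity_not_dvd hT' c
  refine ⟨(∏ c' ∈ Cs.erase c, (X - C c') ^ (T'.rootMultiplicity c')) * g', ?_⟩
  conv_lhs => rw [hg, ← Finset.mul_prod_erase _ _ hc, hg']
  ring

theorem PF_dfam (Cs : Finset ℂ) (k : ℂ → ℕ) (g : ℂ[X]) : PF (dfam Cs k g) := by
  unfold dfam
  exact (PF.prod Cs fun c => (PF.const ((X - C c) ^ (k c))).sub PF.C).mul (PF.const g)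

theorem PF_base (T : ℂ[X]) (Cs : Finset ℂ) (k : ℂ → ℕ) (g : ℂ[X]) : PF (base T Cs k g) :=
  (PF.const _).add (PF.anti _ (PF_dfam Cs k g))

theorem natDegree_dfam {T : ℂ[X]} (hd : 2 ≤ T.natDegree) {Cs : Finset ℂ} {k : ℂ → ℕ} {g : ℂ[X]}
    (hT : derivative T = (∏ c ∈ Cs, (X - C c) ^ (k c)) * g) (s : ℂ) :
    (dfam Cs k g s).natDegree < T.natDegree := by
  have hT' : derivative T ≠ 0 := by
    intro h
    have := Polynomial.derivative_eq_zero.1 h
    omega
  have h1 : (derivative T).natDegree < T.natDegree :=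
    Polynomial.natDegree_derivative_lt (by omega)
  have hg : g ≠ 0 := by
    rintro rfl
    rw [mul_zero] at hT
    exact hT' hT
  have h2 : (derivative T).natDegree = (∑ c ∈ Cs, k c) + g.natDegree := by
    rw [hT, Polynomial.natDegree_mul (Finset.prod_ne_zero_iff.2 fun c _ =>
      pow_ne_zero _ (Polynomial.X_sub_C_ne_zero c)) hg,
      Polynomial.natDegree_prod _ _ fun c _ => pow_ne_zero _ (Polynomial.X_sub_C_ne_zero c)]
    congr 1
    exact Finset.sum_congr rfl fun c _ => by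
      rw [Polynomial.natDegree_pow, Polynomial.natDegree_X_sub_C, mul_one]
  have h3 : (dfam Cs k g s).natDegree ≤ (∑ c ∈ Cs, k c) + g.natDegree := by
    unfold dfam
    refine Polynomial.natDegree_mul_le.trans (Nat.add_le_add_right ?_ _)
    refine (Polynomial.natDegree_prod_le _ _).trans (Finset.sum_le_sum fun c _ => ?_)
    refine (Polynomial.natDegree_sub_le _ _).trans ?_
    rw [Polynomial.natDegree_pow, Polynomial.natDegree_X_sub_C, mul_one, Polynomial.natDegree_C]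
    simp
  omega

theorem dfam_zero {Cs : Finset ℂ} {k : ℂ → ℕ} {g : ℂ[X]} :
    dfam Cs k g 0 = (∏ c ∈ Cs, (X - C c) ^ (k c)) * g := by
  simp [dfam]

theorem base_natDegree (T : ℂ[X]) (Cs : Finset ℂ) (k : ℂ → ℕ) (g : ℂ[X]) (s : ℂ) :
    (base T Cs k g s).natDegree ≤ T.natDegree := by
  unfold base
  refine (Polynomial.natDegree_add_le _ _).trans (max_le ?_ (natDegree_anti_le _ _))
  rw [Polynomial.natDegree_C]
  exact Nat.zero_le _

theorem base_derivative {T : ℂ[X]} (hd : 2 ≤ T.natDegree) {Cs : Finset ℂ} {k : ℂ → ℕ} {g : ℂ[X]}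
    (hT : derivative T = (∏ c ∈ Cs, (X - C c) ^ (k c)) * g) (s : ℂ) :
    derivative (base T Cs k g s) = dfam Cs k g s := by
  unfold base
  rw [derivative_add, derivative_C, zero_add, derivative_anti (natDegree_dfam hd hT s)]

theorem base_zero {T : ℂ[X]} {Cs : Finset ℂ} {k : ℂ → ℕ} {g : ℂ[X]}
    (hT : derivative T = (∏ c ∈ Cs, (X - C c) ^ (k c)) * g) :
    base T Cs k g 0 = T := by
  unfold base
  rw [dfam_zero, ← hT]
  ext m
  rw [Polynomial.coeff_add]
  cases m with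
  | zero => rw [anti_coeff_zero, Polynomial.coeff_C_zero, add_zero]
  | succ m =>
    rw [anti_coeff_succ, Polynomial.coeff_C_succ, zero_add]
    by_cases hm : m < T.natDegree
    · rw [if_pos hm, Polynomial.coeff_derivative]
      have : (m : ℂ) + 1 ≠ 0 := Nat.cast_add_one_ne_zero m
      field_simp
    · rw [if_neg hm]
      exact (Polynomial.coeff_eq_zero_of_natDegree_lt (by omega)).symm

/-- the regular factor of the derivative in coordinates centred at `c` -/
noncomputable def hfac (Cs : Finset ℂ) (k : ℂ → ℕ) (g : ℂ[X]) (c s t : ℂ) : ℂ :=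
  (∏ c' ∈ Cs.erase c, ((c + t - c') ^ (k c') - s)) * g.eval (c + t)

theorem hfac_continuous (Cs : Finset ℂ) (k : ℂ → ℕ) (g : ℂ[X]) (c : ℂ) :
    Continuous (fun p : ℂ × ℂ => hfac Cs k g c p.1 p.2) := by
  unfold hfac
  refine Continuous.mul ?_ ?_
  · exact continuous_finsetProd _ fun c' _ => by fun_prop
  · have h1 : Continuous (fun p : ℂ × ℂ => c + p.2) := by fun_prop
    exact g.continuous.comp h1

theorem hfac_zero_ne {Cs : Finset ℂ} {k : ℂ → ℕ} {g : ℂ[X]} {c : ℂ} (hg : g.eval c ≠ 0) :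
    hfac Cs k g c 0 0 ≠ 0 := by
  unfold hfac
  rw [add_zero]
  refine mul_ne_zero (Finset.prod_ne_zero_iff.2 fun c' hc' => ?_) hg
  rw [sub_zero]
  exact pow_ne_zero _ (sub_ne_zero.2 (Finset.ne_of_mem_erase hc').symm)

theorem dfam_eval {Cs : Finset ℂ} {k : ℂ → ℕ} {g : ℂ[X]} {c : ℂ} (hc : c ∈ Cs) (s t : ℂ) :
    (dfam Cs k g s).eval (c + t) = (t ^ (k c) - s) * hfac Cs k g c s t := by
  unfold dfam hfac
  rw [Polynomial.eval_mul, Polynomial.eval_prod, ← Finset.mul_prod_erase _ _ hc]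
  simp only [Polynomial.eval_sub, Polynomial.eval_pow, Polynomial.eval_X, Polynomial.eval_C,
    add_sub_cancel_left]
  ring

end Pool.Agent.H792R2.Dyn
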